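import Mathlib

/-!
Geometric hypergraphs: basic definitions for problem MP_737bdd_co.
-/

open Module

namespace Pool.Agent.H68

/-- The Euclidean space `ℝ^d`. -/
abbrev Pt (d : ℕ) : Type := EuclideanSpace ℝ (Fin d)

/-- A `d`-dimensional geometric `r`-hypergraph: a finite vertex set `V` in general position
(every hyperplane, i.e. every affine subspace whose direction has dimension `d - 1`, contains at
most `d` vertices) and a finite set `E` of edges; an edge is given by its set of `r` vertices, which
must be affinely independent, so that its convex hull is an `(r-1)`-dimensional simplex. -/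
structure GeomHyp (d r : ℕ) where
  /-- the vertices -/
  V : Finset (Pt d)
  /-- general position -/
  genPos : ∀ H : AffineSubspace ℝ (Pt d), finrank ℝ H.direction + 1 = d →
    {x : Pt d | x ∈ V ∧ x ∈ H}.ncard ≤ d
  /-- the edges, each given by its vertex set -/
  E : Finset (Finset (Pt d))
  /-- the vertices of an edge are vertices of the hypergraph -/
  subV : ∀ e ∈ E, e ⊆ V
  /-- an edge has `r` vertices -/
  card_eq : ∀ e ∈ E, e.card = r
  /-- an edge spans an `(r-1)`-dimensional simplex -/
  simplex : ∀ e ∈ E, AffineIndependent ℝ ((↑) : e → Pt d)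

/-- `L` is a `k`-flat: a nonempty affine subspace of dimension `k`. -/
def IsFlat {d : ℕ} (k : ℕ) (L : AffineSubspace ℝ (Pt d)) : Prop :=
  (L : Set (Pt d)).Nonempty ∧ finrank ℝ L.direction = k

/-- The flat `L` meets the simplex with vertex set `e`. -/
def Meets {d : ℕ} (L : AffineSubspace ℝ (Pt d)) (e : Finset (Pt d)) : Prop :=
  ((L : Set (Pt d)) ∩ convexHull ℝ (e : Set (Pt d))).Nonempty

/-- The number of edges of `G` that meet the flat `L`. -/
noncomputable def numMet {d r : ℕ} (G : GeomHyp d r) (L : AffineSubspace ℝ (Pt d)) : ℕ :=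
  {e : Finset (Pt d) | e ∈ G.E ∧ Meets L e}.ncard

/-- `fval d r k m n` is `f^k_{d,r}(m,n)`: the largest `t` such that every `d`-dimensional geometric
`r`-hypergraph with `n` vertices and `m` edges admits a `k`-flat meeting at least `t` edges. -/
noncomputable def fval (d r k m n : ℕ) : ℕ :=
  sSup {t : ℕ | ∀ G : GeomHyp d r, G.V.card = n → G.E.card = m →
    ∃ L : AffineSubspace ℝ (Pt d), IsFlat k L ∧ t ≤ numMet G L}

lemma numMet_le {d r : ℕ} (G : GeomHyp d r) (L : AffineSubspace ℝ (Pt d)) :
    numMet G L ≤ G.E.card := by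
  classical
  unfold numMet
  calc {e : Finset (Pt d) | e ∈ G.E ∧ Meets L e}.ncard
      ≤ (G.E : Set (Finset (Pt d))).ncard :=
        Set.ncard_le_ncard (fun e he => he.1) (Finset.finite_toSet _)
    _ = G.E.card := Set.ncard_coe_finset _

/-- If some hypergraph with the right parameters is met at most `T` times by each `k`-flat,
then `f ≤ T`. -/
lemma fval_le {d r k m n T : ℕ} (G : GeomHyp d r) (hn : G.V.card = n) (hm : G.E.card = m)
    (hT : ∀ L : AffineSubspace ℝ (Pt d), IsFlat k L → numMet G L ≤ T) :
    fval d r k m n ≤ T := by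
  unfold fval
  rcases Set.eq_empty_or_nonempty {t : ℕ | ∀ G : GeomHyp d r, G.V.card = n → G.E.card = m →
    ∃ L : AffineSubspace ℝ (Pt d), IsFlat k L ∧ t ≤ numMet G L} with h | h
  · rw [h]; simp
  · apply csSup_le h
    intro t ht
    obtain ⟨L, hL, h'⟩ := ht G hn hm
    exact h'.trans (hT L hL)

/-- If every hypergraph with the right parameters has a `k`-flat meeting at least `t` edges and
there is at least one such hypergraph, then `t ≤ f`. -/
lemma le_fval {d r k m n t : ℕ} (hex : ∃ G : GeomHyp d r, G.V.card = n ∧ G.E.card = m)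
    (ht : ∀ G : GeomHyp d r, G.V.card = n → G.E.card = m →
      ∃ L : AffineSubspace ℝ (Pt d), IsFlat k L ∧ t ≤ numMet G L) :
    t ≤ fval d r k m n := by
  unfold fval
  apply le_csSup
  · obtain ⟨G, hn, hm⟩ := hex
    refine ⟨m, ?_⟩
    intro t ht
    obtain ⟨L, hL, h'⟩ := ht G hn hm
    exact h'.trans ((numMet_le G L).trans hm.le)
  · exact ht

/-- A configuration of points indexed by `Fin n` is generic if every subfamily of at most `d + 1`
points is affinely independent. -/
def GP {d n : ℕ} (v : Fin n → Pt d) : Prop :=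
  ∀ j ≤ d + 1, ∀ e : Fin j ↪ Fin n, AffineIndependent ℝ (fun i => v (e i))

lemma GP.injective {d n : ℕ} (hd : 1 ≤ d) {v : Fin n → Pt d} (h : GP v) :
    Function.Injective v := by
  intro a b hab
  by_contra hne
  have h2 := h 2 (by omega) ⟨![a, b], by
    intro i j hij
    fin_cases i <;> fin_cases j <;> simp_all [eq_comm]⟩
  have h3 := h2.injective (a₁ := 0) (a₂ := 1) hab
  simp at h3

/-- in a generic configuration each index set of size at most `d+1` gives an affinely independent
family -/
lemma GP.affInd {d n : ℕ} {v : Fin n → Pt d} (h : GP v) (S : Finset (Fin n))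
    (hS : S.card ≤ d + 1) : AffineIndependent ℝ (fun i : S => v i) := by
  have h1 := h S.card hS ((S.equivFin.symm.toEmbedding).trans (Function.Embedding.subtype _))
  have h2 := (affineIndependent_equiv (k := ℝ) S.equivFin (p := fun i : Fin S.card =>
    v (((S.equivFin.symm.toEmbedding).trans (Function.Embedding.subtype _)) i))).2 h1
  convert h2 using 1
  ext i
  simp

lemma dense_compl_affine {d : ℕ} (A : AffineSubspace ℝ (Pt d)) (hA : A ≠ ⊤) :
    Dense ((A : Set (Pt d))ᶜ) := by
  rw [← interior_eq_empty_iff_dense_compl]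
  by_contra hne
  have hne' : (interior (A : Set (Pt d))).Nonempty := Set.nonempty_iff_ne_empty.2 hne
  have := (Convex.interior_nonempty_iff_affineSpan_eq_top A.convex).1 hne'
  rw [AffineSubspace.affineSpan_coe] at this
  exact hA this

lemma exists_affInd_near (d : ℕ) : ∀ (j : ℕ), j ≤ d + 1 → ∀ (y : Fin j → Pt d) (ε : ℝ), 0 < ε →
    ∃ y' : Fin j → Pt d, (∀ i, dist (y' i) (y i) < ε) ∧ AffineIndependent ℝ y' := by
  intro j
  induction j with
  | zero =>
    intro _ y ε _
    refine ⟨y, fun i => i.elim0, ?_⟩
    exact affineIndependent_of_subsingleton ℝ y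
  | succ j ih =>
    intro hj y ε hε
    obtain ⟨y', hy', hI⟩ := ih (by omega) (fun i => y i.castSucc) ε hε
    have hne : affineSpan ℝ (Set.range y') ≠ ⊤ := by
      intro htop
      rcases Nat.eq_zero_or_pos j with h0 | hpos
      · subst h0
        have : Set.range y' = ∅ := by
          ext x; simp
        rw [this, AffineSubspace.span_empty] at htop
        exact AffineSubspace.bot_ne_top ℝ (Pt d) (Pt d) htop
      · have hcard : Fintype.card (Fin j) = (j - 1) + 1 := by simp; omega
        have h1 := hI.finrank_vectorSpan hcard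
        have h2 : vectorSpan ℝ (Set.range y') = ⊤ := by
          rw [← direction_affineSpan, htop, AffineSubspace.direction_top]
        rw [h2, finrank_top, finrank_euclideanSpace_fin] at h1
        omega
    obtain ⟨z, hz, hzd⟩ := (dense_compl_affine _ hne).exists_dist_lt (y (Fin.last j)) hε
    refine ⟨Fin.snoc y' z, ?_, ?_⟩
    · intro i
      refine Fin.lastCases ?_ (fun i => ?_) i
      · simp only [Fin.snoc_last]
        rwa [dist_comm]
      · simp only [Fin.snoc_castSucc]
        exact hy' i
    · have hlast : (Fin.snoc y' z : Fin (j+1) → Pt d) (Fin.last j) ∉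
          affineSpan ℝ ((Fin.snoc y' z : Fin (j+1) → Pt d) '' {x | x ≠ Fin.last j}) := by
        rw [Fin.snoc_last]
        have : (Fin.snoc y' z : Fin (j+1) → Pt d) '' {x | x ≠ Fin.last j} = Set.range y' := by
          ext x
          constructor
          · rintro ⟨i, hi, rfl⟩
            obtain ⟨i', rfl⟩ := Fin.exists_castSucc_eq.2 hi
            exact ⟨i', by simp⟩
          · rintro ⟨i, rfl⟩
            exact ⟨i.castSucc, (Fin.castSucc_lt_last i).ne, by simp⟩
        rw [this]
        exact hz
      refine AffineIndependent.affineIndependent_of_notMem_span (i := Fin.last j) ?_ hlast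
      have heq : (fun x : {y // y ≠ Fin.last j} => (Fin.snoc y' z : Fin (j+1) → Pt d) x) =
          y' ∘ (finSuccAboveEquiv (Fin.last j)).symm := by
        funext x
        obtain ⟨x, rfl⟩ := (finSuccAboveEquiv (Fin.last j)).surjective x
        rw [Function.comp_apply, Equiv.symm_apply_apply]
        simp only [finSuccAboveEquiv_apply, Fin.succAbove_last, Fin.snoc_castSucc]
      rw [heq]
      exact hI.comp_embedding (finSuccAboveEquiv (Fin.last j)).symm.toEmbedding

/-- restricting configurations along an embedding pulls dense sets back to dense sets -/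
lemma dense_preimage_comp {ι κ : Type*} [Fintype ι] [Fintype κ] {X : Type*}
    [PseudoMetricSpace X] (e : ι ↪ κ) {S : Set (ι → X)} (hS : Dense S) :
    Dense {v : κ → X | (fun i => v (e i)) ∈ S} := by
  classical
  rw [Metric.dense_iff]
  intro v ε hε
  obtain ⟨y, hy, hyd⟩ := hS.exists_dist_lt (fun i => v (e i)) hε
  refine ⟨Function.extend e y v, ?_, ?_⟩
  · rw [Metric.mem_ball, dist_pi_lt_iff hε]
    intro k
    by_cases hk : ∃ i, e i = k
    · obtain ⟨i, rfl⟩ := hk
      rw [e.injective.extend_apply]
      rw [dist_comm]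
      exact (dist_pi_lt_iff hε).1 hyd i
    · rw [Function.extend_apply' _ _ _ hk]
      simpa using hε
  · show (fun i => Function.extend e y v (e i)) ∈ S
    have : (fun i => Function.extend e y v (e i)) = y := by
      funext i
      rw [e.injective.extend_apply]
    rw [this]
    exact hy

lemma isOpen_affInd {d j n : ℕ} (e : Fin j ↪ Fin n) :
    IsOpen {v : Fin n → Pt d | AffineIndependent ℝ (fun i => v (e i))} := by
  have h := isOpen_setOfPred_affineIndependent (𝕜 := ℝ) (E := Pt d) (ι := Fin j)
  exact h.preimage (f := fun v : Fin n → Pt d => fun i => v (e i)) (by fun_prop)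

lemma dense_affInd {d j n : ℕ} (hj : j ≤ d + 1) (e : Fin j ↪ Fin n) :
    Dense {v : Fin n → Pt d | AffineIndependent ℝ (fun i => v (e i))} := by
  refine dense_preimage_comp e (S := {y : Fin j → Pt d | AffineIndependent ℝ y}) ?_
  rw [Metric.dense_iff]
  intro y ε hε
  obtain ⟨y', h1, h2⟩ := exists_affInd_near d j hj y ε hε
  exact ⟨y', by rw [Metric.mem_ball, dist_pi_lt_iff hε]; exact h1, h2⟩

lemma dense_GP (d n : ℕ) : Dense {v : Fin n → Pt d | GP v} := by
  have : {v : Fin n → Pt d | GP v} = ⋂ (j : Fin (d+2)) , ⋂ (e : Fin j ↪ Fin n),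
      {v : Fin n → Pt d | AffineIndependent ℝ (fun i => v (e i))} := by
    ext v
    simp only [Set.mem_iInter, Set.mem_ofPred_eq]
    constructor
    · intro h j e
      exact h j (by omega) e
    · intro h j hj e
      exact h ⟨j, by omega⟩ e
  rw [this]
  apply dense_iInter_of_isOpen
  · intro j
    exact isOpen_iInter_of_finite (fun e => isOpen_affInd e)
  · intro j
    apply dense_iInter_of_isOpen
    · intro e; exact isOpen_affInd e
    · intro e; exact dense_affInd (by omega) e

lemma isOpen_GP (d n : ℕ) : IsOpen {v : Fin n → Pt d | GP v} := by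
  have : {v : Fin n → Pt d | GP v} = ⋂ (j : Fin (d+2)) , ⋂ (e : Fin j ↪ Fin n),
      {v : Fin n → Pt d | AffineIndependent ℝ (fun i => v (e i))} := by
    ext v
    simp only [Set.mem_iInter, Set.mem_ofPred_eq]
    constructor
    · intro h j e
      exact h j (by omega) e
    · intro h j hj e
      exact h ⟨j, by omega⟩ e
  rw [this]
  exact isOpen_iInter_of_finite (fun j => isOpen_iInter_of_finite (fun e => isOpen_affInd e))

/-- The geometric hypergraph on a generic configuration given by a family of index sets. -/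
noncomputable def mkHyp {d r n : ℕ} (hd : 1 ≤ d) (hr : r ≤ d + 1) (v : Fin n → Pt d) (hv : GP v)
    (F : Finset (Finset (Fin n))) (hF : ∀ e ∈ F, e.card = r) : GeomHyp d r where
  V := Finset.univ.map ⟨v, hv.injective hd⟩
  genPos := by
    classical
    intro H hH
    by_contra hlt
    push Not at hlt
    obtain ⟨T, hTsub, hTcard⟩ := Set.exists_subset_card_eq (n := d + 1) hlt
    have hfin : T.Finite := Set.finite_of_ncard_ne_zero (by omega)
    -- choose indices
    let S : Finset (Fin n) := Finset.univ.filter (fun i => v i ∈ T)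
    have hSc : S.card = d + 1 := by
      have h1 : (S.map ⟨v, hv.injective hd⟩ : Set (Pt d)) = T := by
        ext x
        simp only [Finset.coe_map, Function.Embedding.coeFn_mk, Set.mem_image, Finset.mem_coe, S,
          Finset.mem_filter, Finset.mem_univ, true_and]
        constructor
        · rintro ⟨i, hi, rfl⟩; exact hi
        · intro hx
          have := (hTsub hx).1
          simp only [Finset.mem_map, Finset.mem_univ, Function.Embedding.coeFn_mk, true_and] at this
          obtain ⟨i, rfl⟩ := this
          exact ⟨i, hx, rfl⟩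
      rw [← h1, Set.ncard_coe_finset, Finset.card_map] at hTcard
      exact hTcard
    have hI := hv.affInd S (by omega)
    have hcard : Fintype.card S = d + 1 := by simp [hSc]
    have h2 := hI.finrank_vectorSpan hcard
    have h3 : vectorSpan ℝ (Set.range fun i : S => v i) ≤ H.direction := by
      rw [AffineSubspace.direction_eq_vectorSpan]
      apply vectorSpan_mono
      rintro _ ⟨i, rfl⟩
      have hi := i.2
      simp only [S, Finset.mem_filter, Finset.mem_univ, true_and] at hi
      exact (hTsub hi).2
    have h4 := Submodule.finrank_mono h3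
    omega
  E := F.map ⟨fun e => e.map ⟨v, hv.injective hd⟩, Finset.map_injective _⟩
  subV := by
    intro e he
    simp only [Finset.mem_map, Function.Embedding.coeFn_mk] at he
    obtain ⟨e', _, rfl⟩ := he
    exact Finset.map_subset_map.2 (Finset.subset_univ _)
  card_eq := by
    intro e he
    simp only [Finset.mem_map, Function.Embedding.coeFn_mk] at he
    obtain ⟨e', he', rfl⟩ := he
    rw [Finset.card_map]
    exact hF e' he'
  simplex := by
    intro e he
    simp only [Finset.mem_map, Function.Embedding.coeFn_mk] at he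
    obtain ⟨e', he', rfl⟩ := he
    have hI := hv.affInd e' (by rw [hF e' he']; exact hr)
    have h2 := hI.range
    have h3 : Set.range (fun i : e' => v i) =
        ((e'.map ⟨v, hv.injective hd⟩ : Finset (Pt d)) : Set (Pt d)) := by
      ext x; simp
    rw [h3] at h2
    exact h2

lemma mkHyp_card_V {d r n : ℕ} (hd : 1 ≤ d) (hr : r ≤ d + 1) (v : Fin n → Pt d) (hv : GP v)
    (F : Finset (Finset (Fin n))) (hF : ∀ e ∈ F, e.card = r) :
    (mkHyp hd hr v hv F hF).V.card = n := by
  simp [mkHyp]

lemma mkHyp_card_E {d r n : ℕ} (hd : 1 ≤ d) (hr : r ≤ d + 1) (v : Fin n → Pt d) (hv : GP v)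
    (F : Finset (Finset (Fin n))) (hF : ∀ e ∈ F, e.card = r) :
    (mkHyp hd hr v hv F hF).E.card = F.card := by
  simp [mkHyp]

/-- The flat `L` meets the simplex spanned by the points with indices in `e`. -/
def MeetsIdx {d n : ℕ} (v : Fin n → Pt d) (L : AffineSubspace ℝ (Pt d)) (e : Finset (Fin n)) :
    Prop := ((L : Set (Pt d)) ∩ convexHull ℝ (v '' (e : Set (Fin n)))).Nonempty

open Classical in
lemma mkHyp_numMet {d r n : ℕ} (hd : 1 ≤ d) (hr : r ≤ d + 1) (v : Fin n → Pt d) (hv : GP v)
    (F : Finset (Finset (Fin n))) (hF : ∀ e ∈ F, e.card = r) (L : AffineSubspace ℝ (Pt d)) :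
    numMet (mkHyp hd hr v hv F hF) L = (F.filter (fun e => MeetsIdx v L e)).card := by
  unfold numMet
  have : {e : Finset (Pt d) | e ∈ (mkHyp hd hr v hv F hF).E ∧ Meets L e} =
      ((F.filter (fun e => MeetsIdx v L e)).map
        ⟨fun e => e.map ⟨v, hv.injective hd⟩, Finset.map_injective _⟩ : Finset (Finset (Pt d))) := by
    ext e
    simp only [mkHyp, Finset.mem_map, Function.Embedding.coeFn_mk, Set.mem_ofPred_eq,
      Finset.coe_map, Set.mem_image, Finset.mem_coe, Finset.mem_filter]
    constructor
    · rintro ⟨⟨e', he', rfl⟩, hm⟩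
      refine ⟨e', ⟨he', ?_⟩, rfl⟩
      unfold Meets at hm
      unfold MeetsIdx
      simpa using hm
    · rintro ⟨e', ⟨he', hm⟩, rfl⟩
      refine ⟨⟨e', he', rfl⟩, ?_⟩
      unfold Meets
      unfold MeetsIdx at hm
      simpa using hm
  rw [this, Set.ncard_coe_finset, Finset.card_map]

lemma exists_GP (d n : ℕ) : ∃ v : Fin n → Pt d, GP v := by
  obtain ⟨v, hv⟩ := (dense_GP d n).nonempty
  exact ⟨v, hv⟩

lemma exists_geomHyp {d r n m : ℕ} (hd : 1 ≤ d) (hr : r ≤ d + 1) (hm : m ≤ n.choose r) :
    ∃ G : GeomHyp d r, G.V.card = n ∧ G.E.card = m := by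
  obtain ⟨v, hv⟩ := exists_GP d n
  have h1 : m ≤ (Finset.powersetCard r (Finset.univ : Finset (Fin n))).card := by
    simpa using hm
  obtain ⟨F, hF, hFc⟩ := Finset.exists_subset_card_eq h1
  refine ⟨mkHyp hd hr v hv F (fun e he => (Finset.mem_powersetCard.1 (hF he)).2), ?_, ?_⟩
  · exact mkHyp_card_V ..
  · rw [mkHyp_card_E]; exact hFc

end Pool.Agent.H68
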