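import Mathlib
import Pool.Agent.H68.GeomHyp

/-!
Generic configurations: a flat of dimension `k` cannot meet many disjoint simplices spanned by `s`
points of a generic configuration if `k + s ≤ d`.
-/

open Module

namespace Pool.Agent.H68

/-- configurations of `t` blocks of `s` points such that one can choose a point in the convex hull
of each block with all chosen points lying in a flat of dimension at most `k` -/
def BadCfg (d k t s : ℕ) : Set (Fin t × Fin s → Pt d) :=
  {y | ∃ x : Fin t → Pt d, (∀ j, ∃ w ∈ stdSimplex ℝ (Fin s), x j = ∑ l, w l • y (j, l)) ∧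
    finrank ℝ (vectorSpan ℝ (Set.range x)) ≤ k}

lemma exists_span_fin {d k : ℕ} (W : Submodule ℝ (Pt d)) (hW : finrank ℝ W ≤ k) :
    ∃ b : Fin k → Pt d, W ≤ Submodule.span ℝ (Set.range b) := by
  classical
  let B := finBasis ℝ W
  refine ⟨fun m => if h : (m : ℕ) < finrank ℝ W then (B ⟨m, h⟩ : Pt d) else 0, ?_⟩
  intro x hx
  have h1 : (⟨x, hx⟩ : W) = ∑ i, B.repr ⟨x, hx⟩ i • B i := (B.sum_repr _).symm
  have h2 : x = ∑ i, B.repr ⟨x, hx⟩ i • (B i : Pt d) := by
    have h3 := congrArg W.subtype h1
    rw [map_sum] at h3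
    simpa only [map_smul, Submodule.subtype_apply] using h3
  rw [h2]
  refine Submodule.sum_mem _ (fun i _ => Submodule.smul_mem _ _ ?_)
  apply Submodule.subset_span
  refine ⟨⟨i, by omega⟩, ?_⟩
  simp

/-- the polynomial parametrisation of bad configurations -/
noncomputable def paramMap {d k t s : ℕ} (i : Fin t → Fin (s + 1))
    (p : (Pt d × (Fin k → Pt d)) × (Fin t → Fin k → ℝ) × (Fin t → Fin s → ℝ) ×
      (Fin t → Fin s → Pt d)) : Fin t × Fin (s + 1) → Pt d :=
  fun jl => Fin.insertNth (α := fun _ => Pt d) (i jl.1)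
    ((1 - ∑ l, p.2.2.1 jl.1 l) • (p.1.1 + ∑ m, p.2.1 jl.1 m • p.1.2 m) +
      ∑ l, p.2.2.1 jl.1 l • p.2.2.2 jl.1 l) (p.2.2.2 jl.1) jl.2

lemma contDiff_paramMap {d k t s : ℕ} (i : Fin t → Fin (s + 1)) :
    ContDiff ℝ 1 (paramMap (d := d) (k := k) (t := t) (s := s) i) := by
  rw [contDiff_pi]
  rintro ⟨j, l⟩
  unfold paramMap
  simp only
  rcases Fin.eq_self_or_eq_succAbove (i j) l with rfl | ⟨l', rfl⟩
  · simp only [Fin.insertNth_apply_same]
    fun_prop
  · simp only [Fin.insertNth_apply_succAbove]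
    fun_prop

lemma badCfg_subset {d k t s : ℕ} : BadCfg d k (t + 1) (s + 1) ⊆
    ⋃ i : Fin (t + 1) → Fin (s + 1), Set.range (paramMap (d := d) (k := k) i) := by
  classical
  rintro y ⟨x, hx, hk⟩
  choose w hw hxw using hx
  -- choose an index of positive weight
  have hpos : ∀ j, ∃ l, 0 < w j l := by
    intro j
    by_contra hcon
    push Not at hcon
    have h1 : ∑ l, w j l = 1 := (hw j).2
    have h2 : ∑ l, w j l ≤ 0 := Finset.sum_nonpos (fun l _ => hcon l)
    linarith
  choose i hi using hpos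
  obtain ⟨b, hb⟩ := exists_span_fin _ hk
  have hσ : ∀ j, ∃ σ : Fin k → ℝ, ∑ m, σ m • b m = x j - x 0 := by
    intro j
    have h1 : x j - x 0 ∈ vectorSpan ℝ (Set.range x) :=
      vsub_mem_vectorSpan ℝ ⟨j, rfl⟩ ⟨0, rfl⟩
    exact (Submodule.mem_span_range_iff_exists_fun ℝ).1 (hb h1)
  choose σ hσ using hσ
  rw [Set.mem_iUnion]
  refine ⟨i, ((x 0, b), σ, fun j l => -(w j ((i j).succAbove l) / w j (i j)),
    fun j l => y (j, (i j).succAbove l)), ?_⟩
  funext jl
  obtain ⟨j, l⟩ := jl
  unfold paramMap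
  simp only
  rcases Fin.eq_self_or_eq_succAbove (i j) l with h | ⟨l', rfl⟩
  · rw [h]
    simp only [Fin.insertNth_apply_same]
    have hne : w j (i j) ≠ 0 := (hi j).ne'
    have h1 : ∑ l, w j l = 1 := (hw j).2
    rw [Fin.sum_univ_succAbove _ (i j)] at h1
    have h2 : x j = ∑ l, w j l • y (j, l) := hxw j
    rw [Fin.sum_univ_succAbove _ (i j)] at h2
    have h3 : x 0 + ∑ m, σ j m • b m = x j := by rw [hσ j]; abel
    rw [h3]
    have h4 : (1 - ∑ l : Fin s, -(w j ((i j).succAbove l) / w j (i j))) = (w j (i j))⁻¹ := by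
      rw [Finset.sum_neg_distrib, ← Finset.sum_div]
      field_simp
      linarith
    rw [h4]
    have h5 : ∑ l : Fin s, (-(w j ((i j).succAbove l) / w j (i j))) • y (j, (i j).succAbove l) =
        -((w j (i j))⁻¹ • ∑ l : Fin s, w j ((i j).succAbove l) • y (j, (i j).succAbove l)) := by
      rw [Finset.smul_sum, ← Finset.sum_neg_distrib]
      refine Finset.sum_congr rfl (fun l _ => ?_)
      rw [neg_smul, smul_smul, div_eq_inv_mul]
    rw [h5, h2, smul_add, smul_smul, inv_mul_cancel₀ hne, one_smul]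
    abel
  · simp only [Fin.insertNth_apply_succAbove]

lemma dense_compl_badCfg {d k t s : ℕ} (hs : 1 ≤ s) (hks : k + s ≤ d) (ht : (k + 1) * d < t) :
    Dense (BadCfg d k t s)ᶜ := by
  obtain ⟨s, rfl⟩ : ∃ s', s = s' + 1 := ⟨s - 1, by omega⟩
  obtain ⟨t, rfl⟩ : ∃ t', t = t' + 1 := ⟨t - 1, by omega⟩
  apply dense_compl_of_dimH_lt_finrank
  refine (dimH_mono badCfg_subset).trans_lt ?_
  rw [dimH_iUnion]
  rw [iSup_lt_iff]
  refine ⟨((d + k * d + ((t+1) * k + ((t+1) * s + (t+1) * (s * d))) : ℕ) : ENNReal), ?_, ?_⟩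
  · rw [Nat.cast_lt]
    simp only [finrank_pi_fintype, finrank_euclideanSpace_fin, Finset.sum_const, Finset.card_univ,
      Fintype.card_prod, Fintype.card_fin, smul_eq_mul]
    obtain ⟨c, rfl⟩ : ∃ c, d = k + s + 1 + c := ⟨d - (k + s + 1), by omega⟩
    have h1 : (t + 1) * (s + 1) * (k + s + 1 + c) =
      (t+1) * k + (t+1) * s + (t+1) * (s * (k + s + 1 + c)) + (t + 1) * (1 + c) := by ring
    rw [h1]
    have h2 : (k + s + 1 + c) + k * (k + s + 1 + c) = (k+1) * (k + s + 1 + c) := by ring
    have h3 : t + 1 ≤ (t + 1) * (1 + c) := Nat.le_mul_of_pos_right _ (by omega)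
    omega
  · intro i
    refine (contDiff_paramMap i).dimH_range_le.trans ?_
    rw [Nat.cast_le]
    simp only [finrank_prod, finrank_pi_fintype, finrank_euclideanSpace_fin, Finset.sum_const,
      Finset.card_univ, Fintype.card_fin, smul_eq_mul, finrank_self, mul_one]
    exact le_of_eq (by ring)

lemma isClosed_finrank_vectorSpan_le {d t k : ℕ} :
    IsClosed {x : Fin t → Pt d | finrank ℝ (vectorSpan ℝ (Set.range x)) ≤ k} := by
  rw [← isOpen_compl_iff]
  -- the complement is the union over injections `Fin (k+2) ↪ Fin t` of affinely independent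
  have : {x : Fin t → Pt d | finrank ℝ (vectorSpan ℝ (Set.range x)) ≤ k}ᶜ =
      ⋃ e : Fin (k + 2) ↪ Fin t, {x | AffineIndependent ℝ (fun i => x (e i))} := by
    ext x
    simp only [Set.mem_compl_iff, Set.mem_ofPred_eq, not_le, Set.mem_iUnion]
    constructor
    · intro h
      obtain ⟨S, hS, hspan, hI⟩ := exists_affineIndependent ℝ (Pt d) (Set.range x)
      have hfin : S.Finite := (Set.finite_range x).subset hS
      have hne : S.Nonempty := by
        by_contra hne
        rw [Set.not_nonempty_iff_eq_empty] at hne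
        rw [hne, AffineSubspace.span_empty] at hspan
        have h1 : vectorSpan ℝ (Set.range x) = ⊥ := by
          rw [← direction_affineSpan, ← hspan, AffineSubspace.direction_bot]
        rw [h1] at h
        simp at h
      have hcard : k + 2 ≤ S.ncard := by
        have := hfin.fintype
        have hpos : 0 < Fintype.card S := Fintype.card_pos_iff.2 hne.to_subtype
        have hc : Fintype.card S = (Fintype.card S - 1) + 1 := by omega
        have h1 := hI.finrank_vectorSpan hc
        rw [Subtype.range_coe] at h1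
        have h2 : vectorSpan ℝ S = vectorSpan ℝ (Set.range x) := by
          rw [← direction_affineSpan, hspan, direction_affineSpan]
        rw [h2] at h1
        have h3 : S.ncard = Fintype.card S := by
          rw [Set.ncard_eq_toFinset_card', Set.toFinset_card]
        omega
      obtain ⟨T, hT, hTc⟩ := Set.exists_subset_card_eq hcard
      have hTfin : T.Finite := hfin.subset hT
      have := hTfin.fintype
      have hc2 : Fintype.card T = k + 2 := by
        rw [← hTc, Set.ncard_eq_toFinset_card', Set.toFinset_card]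
      have hsel : ∀ z : T, ∃ i, x i = z := fun z => hS (hT z.2)
      choose g hg using hsel
      have hginj : Function.Injective g := by
        intro a b hab
        apply Subtype.ext
        rw [← hg a, ← hg b, hab]
      let φ : Fin (k + 2) ≃ T := (Fintype.equivFinOfCardEq hc2).symm
      refine ⟨⟨g ∘ φ, hginj.comp φ.injective⟩, ?_⟩
      have h4 : (fun i : Fin (k+2) => x ((⟨g ∘ φ, hginj.comp φ.injective⟩ :
          Fin (k+2) ↪ Fin t) i)) = fun i => ((φ i : T) : Pt d) := by
        funext i
        exact hg (φ i)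
      rw [h4]
      have h5 : AffineIndependent ℝ ((↑) : T → Pt d) := hI.mono hT
      exact h5.comp_embedding φ.toEmbedding
    · rintro ⟨e, he⟩
      have h1 := he.finrank_vectorSpan (n := k + 1) (by simp)
      have h2 : vectorSpan ℝ (Set.range fun i => x (e i)) ≤ vectorSpan ℝ (Set.range x) := by
        apply vectorSpan_mono
        rintro _ ⟨i, rfl⟩
        exact ⟨e i, rfl⟩
      have h3 := Submodule.finrank_mono h2
      omega
  rw [this]
  exact isOpen_iUnion (fun e => isOpen_affInd e)

lemma isClosed_badCfg {d k t s : ℕ} : IsClosed (BadCfg d k t s) := by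
  have h1 : BadCfg d k t s = Prod.snd ''
      {p : (Fin t → stdSimplex ℝ (Fin s)) × (Fin t × Fin s → Pt d) |
        finrank ℝ (vectorSpan ℝ (Set.range
          (fun j => ∑ l, (p.1 j).1 l • p.2 (j, l)))) ≤ k} := by
    ext y
    constructor
    · rintro ⟨x, hx, hk⟩
      choose w hw hxw using hx
      refine ⟨(fun j => ⟨w j, hw j⟩, y), ?_, rfl⟩
      simp only [Set.mem_ofPred_eq]
      have h2 : (fun j => ∑ l, w j l • y (j, l)) = x := by
        funext j; exact (hxw j).symm
      rw [← h2] at hk
      exact hk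
    · rintro ⟨⟨w, y'⟩, hk, rfl⟩
      exact ⟨fun j => ∑ l, (w j).1 l • y' (j, l), fun j => ⟨w j, (w j).2, rfl⟩, hk⟩
  rw [h1]
  apply isClosedMap_snd_of_compactSpace
  refine IsClosed.preimage (f := fun p : (Fin t → stdSimplex ℝ (Fin s)) × (Fin t × Fin s → Pt d) =>
    (fun j => ∑ l, (p.1 j).1 l • p.2 (j, l))) ?_ isClosed_finrank_vectorSpan_le
  refine continuous_pi (fun j => continuous_finsetSum _ (fun l _ => ?_))
  have c1 : Continuous (fun p : (Fin t → stdSimplex ℝ (Fin s)) × (Fin t × Fin s → Pt d) =>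
      (p.1 j).1 l) := (continuous_apply l).comp (continuous_subtype_val.comp
      ((continuous_apply j).comp continuous_fst))
  have c2 : Continuous (fun p : (Fin t → stdSimplex ℝ (Fin s)) × (Fin t × Fin s → Pt d) =>
      p.2 (j, l)) := (continuous_apply (j, l)).comp continuous_snd
  exact c1.smul c2

/-- A configuration `c` of `N` points is `(k,t,s)`-generic if no `t` disjoint `s`-subsets form a
bad configuration. -/
def Gen (d k t s : ℕ) {N : ℕ} (c : Fin N → Pt d) : Prop :=
  ∀ e : (Fin t × Fin s) ↪ Fin N, (fun i => c (e i)) ∉ BadCfg d k t s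

lemma isOpen_gen (d k t s N : ℕ) : IsOpen {c : Fin N → Pt d | Gen d k t s c} := by
  have : {c : Fin N → Pt d | Gen d k t s c} = ⋂ e : (Fin t × Fin s) ↪ Fin N,
      {c | (fun i => c (e i)) ∈ (BadCfg d k t s)ᶜ} := by
    ext c
    simp [Gen]
  rw [this]
  refine isOpen_iInter_of_finite (fun e => ?_)
  exact (isClosed_badCfg.isOpen_compl).preimage
    (f := fun v : Fin N → Pt d => fun i => v (e i)) (by fun_prop)

lemma exists_gen {d k t s : ℕ} (hs : 1 ≤ s) (hks : k + s ≤ d) (ht : (k + 1) * d < t) (N : ℕ) :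
    ∃ c : Fin N → Pt d, Gen d k t s c := by
  have : Dense {c : Fin N → Pt d | Gen d k t s c} := by
    have : {c : Fin N → Pt d | Gen d k t s c} = ⋂ e : (Fin t × Fin s) ↪ Fin N,
        {c | (fun i => c (e i)) ∈ (BadCfg d k t s)ᶜ} := by
      ext c
      simp [Gen]
    rw [this]
    apply dense_iInter_of_isOpen
    · intro e
      exact (isClosed_badCfg.isOpen_compl).preimage
        (f := fun v : Fin N → Pt d => fun i => v (e i)) (by fun_prop)
    · intro e
      exact dense_preimage_comp e (dense_compl_badCfg hs hks ht)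
  exact this.nonempty

end Pool.Agent.H68
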