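import Mathlib

/-!
Near-regular uniform hypergraphs exist for every number of edges.
-/

namespace Pool.Agent.H68

open Finset

/-- number of members of `F` containing `b` -/
def degr {N : ℕ} (F : Finset (Finset (Fin N))) (b : Fin N) : ℕ :=
  (F.filter (fun B => b ∈ B)).card

lemma sum_degr {N s : ℕ} (F : Finset (Finset (Fin N))) (hF : ∀ B ∈ F, B.card = s) :
    ∑ b, degr F b = s * F.card := by
  unfold degr
  simp only [card_filter]
  rw [sum_comm]
  have : ∀ B ∈ F, (∑ b : Fin N, if b ∈ B then 1 else 0) = s := by
    intro B hB
    rw [← hF B hB]
    simp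
  rw [sum_congr rfl this, sum_const, smul_eq_mul, mul_comm]

lemma exists_near_regular (N s m : ℕ) (hm : m ≤ N.choose s) :
    ∃ F : Finset (Finset (Fin N)), (∀ B ∈ F, B.card = s) ∧ F.card = m ∧
      ∀ b, N * degr F b ≤ s * m + N := by
  classical
  let 𝒮 : Finset (Finset (Finset (Fin N))) :=
    powersetCard m (powersetCard s (univ : Finset (Fin N)))
  have hne : 𝒮.Nonempty := by
    apply powersetCard_nonempty.2
    simpa using hm
  obtain ⟨F, hF, hmin⟩ := exists_min_image 𝒮 (fun F => ∑ b, (degr F b) ^ 2) hne
  have hFs : ∀ B ∈ F, B.card = s := fun B hB =>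
    (mem_powersetCard.1 ((mem_powersetCard.1 hF).1 hB)).2
  have hFc : F.card = m := (mem_powersetCard.1 hF).2
  refine ⟨F, hFs, hFc, ?_⟩
  have key : ∀ u v, degr F u ≤ degr F v + 1 := by
    intro u v
    by_contra hcon
    push Not at hcon
    have huv : u ≠ v := by
      rintro rfl; omega
    let A := F.filter (fun B => u ∈ B ∧ v ∉ B)
    let A' := F.filter (fun B => v ∈ B ∧ u ∉ B)
    let AA := F.filter (fun B => u ∈ B ∧ v ∈ B)
    have h1 : degr F u = A.card + AA.card := by
      unfold degr
      rw [← card_union_of_disjoint]
      · congr 1
        ext B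
        simp only [A, AA, mem_filter, mem_union]
        tauto
      · rw [disjoint_left]
        intro B hB hB'
        simp only [A, AA, mem_filter] at hB hB'
        tauto
    have h2 : degr F v = A'.card + AA.card := by
      unfold degr
      rw [← card_union_of_disjoint]
      · congr 1
        ext B
        simp only [A', AA, mem_filter, mem_union]
        tauto
      · rw [disjoint_left]
        intro B hB hB'
        simp only [A', AA, mem_filter] at hB hB'
        tauto
    let σ : Finset (Fin N) → Finset (Fin N) := fun B => insert v (B.erase u)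
    have hσinj : Set.InjOn σ (A : Set (Finset (Fin N))) := by
      intro B hB C hC hBC
      simp only [A, coe_filter, Set.mem_ofPred_eq] at hB hC
      have h3 : (σ B).erase v = B.erase u := by
        simp only [σ]
        rw [erase_insert]
        simp [hB.2.2]
      have h4 : (σ C).erase v = C.erase u := by
        simp only [σ]
        rw [erase_insert]
        simp [hC.2.2]
      rw [hBC] at h3
      rw [h3] at h4
      rw [← insert_erase hB.2.1, h4, insert_erase hC.2.1]
    have hex : ∃ B ∈ A, σ B ∉ F := by
      by_contra hall
      push Not at hall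
      have h3 : A.card ≤ A'.card := by
        apply card_le_card_of_injOn σ _ hσinj
        intro B hB
        have hB' := hB
        simp only [A, coe_filter, Set.mem_ofPred_eq] at hB'
        simp only [A', coe_filter, Set.mem_ofPred_eq]
        refine ⟨hall B hB, ?_, ?_⟩
        · simp [σ]
        · simp [σ, huv]
      omega
    obtain ⟨B, hB, hσB⟩ := hex
    have hB' := hB
    simp only [A, mem_filter] at hB'
    obtain ⟨hBF, huB, hvB⟩ := hB'
    have hBcard : (σ B).card = s := by
      simp only [σ]
      rw [card_insert_of_notMem (by simp [hvB]), card_erase_of_mem huB, hFs B hBF]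
      have : 0 < s := by
        rw [← hFs B hBF]; exact card_pos.2 ⟨u, huB⟩
      omega
    let F' := insert (σ B) (F.erase B)
    have hF'mem : F' ∈ 𝒮 := by
      rw [mem_powersetCard]
      constructor
      · intro C hC
        rw [mem_powersetCard]
        refine ⟨subset_univ _, ?_⟩
        rcases mem_insert.1 hC with rfl | hC
        · exact hBcard
        · exact hFs C (mem_of_mem_erase hC)
      · rw [card_insert_of_notMem (by
          intro h; exact hσB (mem_of_mem_erase h)), card_erase_of_mem hBF, hFc]
        have : 0 < m := by rw [← hFc]; exact card_pos.2 ⟨B, hBF⟩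
        omega
    have hdeg : ∀ b, degr F' b + (if b ∈ B then 1 else 0) =
        degr F b + (if b ∈ σ B then 1 else 0) := by
      intro b
      unfold degr
      have e1 : (F.filter (fun C => b ∈ C)).card =
          ((F.erase B).filter (fun C => b ∈ C)).card + (if b ∈ B then 1 else 0) := by
        conv_lhs => rw [← insert_erase hBF]
        rw [filter_insert]
        split_ifs with h
        · rw [card_insert_of_notMem (by simp)]
        · simp
      have e2 : (F'.filter (fun C => b ∈ C)).card =
          ((F.erase B).filter (fun C => b ∈ C)).card + (if b ∈ σ B then 1 else 0) := by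
        simp only [F']
        rw [filter_insert]
        split_ifs with h
        · rw [card_insert_of_notMem (by
            intro h'
            exact hσB (mem_of_mem_erase (mem_filter.1 h').1))]
        · simp
      rw [e1, e2]; ring
    have hu : degr F' u + 1 = degr F u := by
      have := hdeg u
      rw [if_pos huB, if_neg (by simp [σ, huv])] at this
      omega
    have hv : degr F' v = degr F v + 1 := by
      have := hdeg v
      rw [if_neg hvB, if_pos (by simp [σ])] at this
      omega
    have hw : ∀ b, b ≠ u → b ≠ v → degr F' b = degr F b := by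
      intro b hbu hbv
      have := hdeg b
      have hiff : b ∈ B ↔ b ∈ σ B := by simp [σ, hbu, hbv]
      by_cases hb : b ∈ B
      · rw [if_pos hb, if_pos (hiff.1 hb)] at this; omega
      · rw [if_neg hb, if_neg (fun h => hb (hiff.2 h))] at this; omega
    have hle := hmin F' hF'mem
    have s1 : ∀ G : Finset (Finset (Fin N)), ∑ b, (degr G b) ^ 2 =
        (degr G u) ^ 2 + ((degr G v) ^ 2 + ∑ b ∈ (univ.erase u).erase v, (degr G b) ^ 2) := by
      intro G
      rw [add_sum_erase _ (fun b => (degr G b) ^ 2) (by simp [huv.symm]),
        add_sum_erase _ (fun b => (degr G b) ^ 2) (mem_univ _)]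
    rw [s1 F, s1 F'] at hle
    have s2 : ∑ b ∈ (univ.erase u).erase v, (degr F' b) ^ 2 =
        ∑ b ∈ (univ.erase u).erase v, (degr F b) ^ 2 := by
      apply sum_congr rfl
      intro b hb
      simp only [mem_erase, mem_univ, and_true] at hb
      rw [hw b hb.2 hb.1]
    rw [s2, hv, ← hu] at hle
    nlinarith
  intro u
  have h1 : ∑ _v : Fin N, degr F u ≤ ∑ v, (degr F v + 1) := sum_le_sum (fun v _ => key u v)
  rw [sum_add_distrib, sum_degr F hFs, hFc] at h1
  simpa using h1

end Pool.Agent.H68
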