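import Mathlib
import Pool.Agent.H68.GeomHyp
import Pool.Agent.H68.Generic
import Pool.Agent.H68.NearReg

/-!
Flats and simplices on clustered vertex sets.
-/

open Module

namespace Pool.Agent.H68

open Finset

lemma mem_convexHull_image_iff {d n : ℕ} {v : Fin n → Pt d} (hv : Function.Injective v)
    {e : Finset (Fin n)} {x : Pt d} (hx : x ∈ convexHull ℝ (v '' (e : Set (Fin n)))) :
    ∃ w : Fin n → ℝ, (∀ i ∈ e, 0 ≤ w i) ∧ ∑ i ∈ e, w i = 1 ∧ ∑ i ∈ e, w i • v i = x := by
  classical
  have h1 : v '' (e : Set (Fin n)) = ((e.map ⟨v, hv⟩ : Finset (Pt d)) : Set (Pt d)) := by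
    ext; simp
  rw [h1, Finset.mem_convexHull'] at hx
  obtain ⟨w, hw0, hw1, hwx⟩ := hx
  refine ⟨fun i => w (v i), ?_, ?_, ?_⟩
  · intro i hi
    exact hw0 _ (mem_map_of_mem (⟨v, hv⟩ : Fin n ↪ Pt d) hi)
  · rw [sum_map] at hw1
    simpa using hw1
  · rw [sum_map] at hwx
    simpa using hwx

/-- If the centers are robustly generic then no `k`-flat meets `t` simplices whose vertices
come from pairwise disjoint families of `s` clusters. -/
lemma not_meets_of_gen {d k t s n N : ℕ} {c : Fin N → Pt d} {δ : ℝ} (hδ : 0 < δ)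
    (hc : ∀ c' : Fin N → Pt d, (∀ b, dist (c' b) (c b) < δ) → Gen d k t s c')
    (bm : Fin n → Fin N) {v : Fin n → Pt d} (hinj : Function.Injective v)
    (hv : ∀ i, dist (v i) (c (bm i)) < δ) (L : AffineSubspace ℝ (Pt d)) (hL : IsFlat k L)
    (E : Fin t → Finset (Fin n)) (hE : ∀ j, ((E j).image bm).card = s)
    (hdisj : ∀ j j', j ≠ j' → Disjoint ((E j).image bm) ((E j').image bm))
    (hmeet : ∀ j, MeetsIdx v L (E j)) : False := by
  classical
  choose x hx using hmeet
  have hxL : ∀ j, x j ∈ L := fun j => (hx j).1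
  have hxw := fun j => mem_convexHull_image_iff hinj (hx j).2
  choose w hw0 hw1 hwx using hxw
  -- the embedding
  let f : Fin t × Fin s → Fin N := fun p => ((E p.1).image bm).orderEmbOfFin (hE p.1) p.2
  have hf : ∀ j l, f (j, l) ∈ (E j).image bm := fun j l => orderEmbOfFin_mem _ _ _
  have finj : Function.Injective f := by
    rintro ⟨j, l⟩ ⟨j', l'⟩ h
    have hjj : j = j' := by
      by_contra hne
      have h1 := hf j l
      rw [h] at h1
      exact disjoint_left.1 (hdisj j j' hne) h1 (hf j' l')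
    subst hjj
    have : l = l' := ((((E j).image bm).orderEmbOfFin (hE j)).injective) h
    rw [this]
  let W : Fin t → Fin N → ℝ := fun j b => ∑ i ∈ (E j).filter (fun i => bm i = b), w j i
  have hW0 : ∀ j b, 0 ≤ W j b := fun j b => sum_nonneg (fun i hi => hw0 j i (mem_filter.1 hi).1)
  let z : Fin t → Fin N → Pt d := fun j b =>
    if 0 < W j b then ((E j).filter (fun i => bm i = b)).centerMass (w j) v else c b
  have hz : ∀ j b, dist (z j b) (c b) < δ := by
    intro j b
    simp only [z]
    split_ifs with h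
    · have := (convex_ball (c b) δ).centerMass_mem (t := (E j).filter (fun i => bm i = b))
        (w := w j) (z := v) (fun i hi => hw0 j i (mem_filter.1 hi).1) h
        (fun i hi => by
          have h2 := (mem_filter.1 hi).2
          rw [Metric.mem_ball, ← h2]
          exact hv i)
      exact this
    · simpa using hδ
  have hWz : ∀ j b, W j b • z j b = ∑ i ∈ (E j).filter (fun i => bm i = b), w j i • v i := by
    intro j b
    simp only [z]
    split_ifs with h
    · rw [centerMass]
      rw [smul_smul, mul_inv_cancel₀ h.ne', one_smul]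
    · have hW : W j b = 0 := le_antisymm (not_lt.1 h) (hW0 j b)
      rw [hW, zero_smul]
      have h2 := (sum_eq_zero_iff_of_nonneg
        (fun i hi => hw0 j i (mem_filter.1 hi).1)).1 hW
      symm
      apply sum_eq_zero
      intro i hi
      rw [h2 i hi, zero_smul]
  let c' : Fin N → Pt d := Function.extend f (fun p => z p.1 (f p)) c
  have hc' : ∀ b, dist (c' b) (c b) < δ := by
    intro b
    by_cases hb : ∃ p, f p = b
    · obtain ⟨p, rfl⟩ := hb
      simp only [c']
      rw [finj.extend_apply]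
      exact hz _ _
    · simp only [c']
      rw [Function.extend_apply' _ _ _ hb]
      simpa using hδ
  have hc'f : ∀ p, c' (f p) = z p.1 (f p) := fun p => finj.extend_apply _ _ _
  refine hc c' hc' ⟨f, finj⟩ ⟨x, ?_, ?_⟩
  · intro j
    have hsum : ∀ g : Fin N → ℝ, ∑ l, g (f (j, l)) = ∑ b ∈ (E j).image bm, g b := by
      intro g
      have h1 := sum_map univ ((((E j).image bm).orderEmbOfFin (hE j)).toEmbedding) g
      rw [map_orderEmbOfFin_univ] at h1
      exact h1.symm
    have hsum' : ∀ g : Fin N → Pt d, ∑ l, g (f (j, l)) = ∑ b ∈ (E j).image bm, g b := by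
      intro g
      have h1 := sum_map univ ((((E j).image bm).orderEmbOfFin (hE j)).toEmbedding) g
      rw [map_orderEmbOfFin_univ] at h1
      exact h1.symm
    refine ⟨fun l => W j (f (j, l)), ⟨fun l => hW0 _ _, ?_⟩, ?_⟩
    · rw [hsum (W j)]
      simp only [W]
      rw [sum_fiberwise_of_maps_to (fun i hi => mem_image_of_mem bm hi)]
      exact hw1 j
    · have h1 : ∀ l, W j (f (j, l)) • (fun i => c' ((⟨f, finj⟩ : (Fin t × Fin s) ↪ Fin N) i)) (j, l)
          = W j (f (j, l)) • z j (f (j, l)) := by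
        intro l
        simp only [Function.Embedding.coeFn_mk]
        rw [hc'f]
      simp only [h1]
      rw [hsum' (fun b => W j b • z j b)]
      simp only [hWz]
      rw [sum_fiberwise_of_maps_to (fun i hi => mem_image_of_mem bm hi)]
      exact (hwx j).symm
  · have h1 : vectorSpan ℝ (Set.range x) ≤ L.direction := by
      rw [AffineSubspace.direction_eq_vectorSpan]
      apply vectorSpan_mono
      rintro _ ⟨j, rfl⟩
      exact hxL j
    exact (Submodule.finrank_mono h1).trans hL.2.le

open Classical in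
/-- Counting the edges met by a flat. -/
lemma card_meets_le {d k t s n N : ℕ} {c : Fin N → Pt d} {δ : ℝ} (hδ : 0 < δ)
    (hc : ∀ c' : Fin N → Pt d, (∀ b, dist (c' b) (c b) < δ) → Gen d k (t + 1) s c')
    (bm : Fin n → Fin N) {v : Fin n → Pt d} (hinj : Function.Injective v)
    (hv : ∀ i, dist (v i) (c (bm i)) < δ) (L : AffineSubspace ℝ (Pt d)) (hL : IsFlat k L)
    (hs : 1 ≤ s) (F : Finset (Finset (Fin n))) (hF : ∀ e ∈ F, (e.image bm).card = s) (Δ : ℕ)
    (hΔ : ∀ b, (F.filter (fun e => b ∈ e.image bm)).card ≤ Δ) :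
    (F.filter (fun e => MeetsIdx v L e)).card ≤ t * s * Δ := by
  set F' := F.filter (fun e => MeetsIdx v L e) with hF'
  let 𝒮 : Finset (Finset (Finset (Fin n))) := F'.powerset.filter
    (fun M => ∀ e ∈ M, ∀ e' ∈ M, e ≠ e' → Disjoint (e.image bm) (e'.image bm))
  have hne : 𝒮.Nonempty := ⟨∅, by simp [𝒮]⟩
  obtain ⟨M, hM, hmax⟩ := exists_max_image 𝒮 card hne
  have hM' := hM
  simp only [𝒮, mem_filter, mem_powerset] at hM'
  obtain ⟨hMF, hMd⟩ := hM'
  have hMc : M.card ≤ t := by
    by_contra hlt
    push Not at hlt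
    obtain ⟨M', hM's, hM'c⟩ := exists_subset_card_eq (show t + 1 ≤ M.card by omega)
    let φ : Fin (t + 1) ≃ M' := (Fintype.equivFinOfCardEq (by simpa using hM'c)).symm
    refine not_meets_of_gen hδ hc bm hinj hv L hL (fun j => (φ j : Finset (Fin n))) ?_ ?_ ?_
    · intro j
      have h1 := hMF (hM's (φ j).2)
      rw [hF', mem_filter] at h1
      exact hF _ h1.1
    · intro j j' hjj
      apply hMd _ (hM's (φ j).2) _ (hM's (φ j').2)
      intro h
      exact hjj (φ.injective (Subtype.ext h))
    · intro j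
      have h1 := hMF (hM's (φ j).2)
      rw [hF', mem_filter] at h1
      exact h1.2
  have hcover : F' ⊆ M.biUnion (fun e' => (e'.image bm).biUnion
      (fun b => F.filter (fun e => b ∈ e.image bm))) := by
    intro e he
    have he' := he
    rw [hF', mem_filter] at he'
    have hnon : (e.image bm).Nonempty := card_pos.1 (by rw [hF e he'.1]; omega)
    have hshare : ∃ e' ∈ M, ¬ Disjoint (e.image bm) (e'.image bm) := by
      by_cases heM : e ∈ M
      · exact ⟨e, heM, by rwa [disjoint_self_iff_empty, ← ne_eq, ← nonempty_iff_ne_empty]⟩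
      · by_contra hall
        push Not at hall
        have hin : insert e M ∈ 𝒮 := by
          simp only [𝒮, mem_filter, mem_powerset]
          refine ⟨insert_subset he hMF, ?_⟩
          intro a ha b hb hab
          rcases mem_insert.1 ha with h1 | h1
          · rcases mem_insert.1 hb with h2 | h2
            · exact absurd (h1.trans h2.symm) hab
            · rw [h1]; exact hall b h2
          · rcases mem_insert.1 hb with h2 | h2
            · rw [h2]; exact (hall a h1).symm
            · exact hMd a h1 b h2 hab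
        have := hmax _ hin
        rw [card_insert_of_notMem heM] at this
        omega
    obtain ⟨e', he'M, hnd⟩ := hshare
    rw [not_disjoint_iff] at hnd
    obtain ⟨b, hb1, hb2⟩ := hnd
    simp only [mem_biUnion]
    exact ⟨e', he'M, b, hb2, mem_filter.2 ⟨he'.1, hb1⟩⟩
  calc F'.card ≤ _ := card_le_card hcover
    _ ≤ ∑ e' ∈ M, ((e'.image bm).biUnion (fun b => F.filter (fun e => b ∈ e.image bm))).card :=
        card_biUnion_le
    _ ≤ ∑ e' ∈ M, s * Δ := by
        apply sum_le_sum
        intro e' he'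
        have h1 := hMF he'
        rw [hF', mem_filter] at h1
        calc _ ≤ ∑ b ∈ e'.image bm, (F.filter (fun e => b ∈ e.image bm)).card := card_biUnion_le
          _ ≤ ∑ b ∈ e'.image bm, Δ := sum_le_sum (fun b _ => hΔ b)
          _ = s * Δ := by rw [sum_const, hF e' h1.1, smul_eq_mul]
    _ = M.card * (s * Δ) := by rw [sum_const, smul_eq_mul]
    _ ≤ t * (s * Δ) := Nat.mul_le_mul_right _ hMc
    _ = t * s * Δ := by ring

/-- Existence of vertex sets in general position close to prescribed generic centers. -/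
lemma exists_clustered {d k s : ℕ} (hs : 1 ≤ s) (hks : k + s ≤ d) {n N : ℕ}
    (bm : Fin n → Fin N) :
    ∃ (c : Fin N → Pt d) (δ : ℝ) (v : Fin n → Pt d), 0 < δ ∧
      (∀ c' : Fin N → Pt d, (∀ b, dist (c' b) (c b) < δ) → Gen d k ((k + 1) * d + 1) s c') ∧
      GP v ∧ (∀ i, dist (v i) (c (bm i)) < δ) := by
  obtain ⟨c, hc⟩ := exists_gen (d := d) (k := k) (t := (k+1) * d + 1) hs hks (by omega) N
  obtain ⟨δ, hδ, hball⟩ := Metric.isOpen_iff.1 (isOpen_gen d k ((k+1)*d+1) s N) c hc
  obtain ⟨v, hvGP, hvd⟩ := (dense_GP d n).exists_dist_lt (fun i => c (bm i)) hδ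
  refine ⟨c, δ, v, hδ, ?_, hvGP, ?_⟩
  · intro c' hc'
    apply hball
    rw [Metric.mem_ball, dist_pi_lt_iff hδ]
    exact hc'
  · intro i
    rw [dist_comm]
    exact (dist_pi_lt_iff hδ).1 hvd i

open Classical in
/-- General upper bound: a family of `r`-sets of indices each touching exactly `s` blocks, with
every block touched at most `Δ` times, gives an upper bound for `f`. -/
lemma fval_le_of_family {d k s r : ℕ} (hd : 1 ≤ d) (hs : 1 ≤ s) (hks : k + s ≤ d)
    (hr : r ≤ d + 1) {n N m : ℕ} (bm : Fin n → Fin N) (F : Finset (Finset (Fin n)))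
    (hFr : ∀ e ∈ F, e.card = r) (hF : ∀ e ∈ F, (e.image bm).card = s) (hFm : F.card = m) (Δ : ℕ)
    (hΔ : ∀ b, (F.filter (fun e => b ∈ e.image bm)).card ≤ Δ) :
    fval d r k m n ≤ (k + 1) * d * s * Δ := by
  obtain ⟨c, δ, v, hδ, hgen, hGP, hvd⟩ := exists_clustered (d := d) hs hks bm
  refine fval_le (mkHyp hd hr v hGP F hFr) (mkHyp_card_V ..) (by rw [mkHyp_card_E]; exact hFm) ?_
  intro L hL
  rw [mkHyp_numMet]
  exact card_meets_le hδ hgen bm (hGP.injective hd) hvd L hL hs F hF Δ hΔ

end Pool.Agent.H68
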