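import Mathlib
import Pool.Agent.H68.Block

/-!
Upper bounds for `f^k_{d,r}(m,n)`.
-/

open Module

namespace Pool.Agent.H68

open Finset

open Classical in
lemma exists_family {s r n N m ψ : ℕ} (hN : 1 ≤ N) (bm : Fin n → Fin N) (hψ : 1 ≤ ψ)
    (hfull : ∀ B : Finset (Fin N), B.card = s → ∃ 𝒜 : Finset (Finset (Fin n)), ψ ≤ 𝒜.card ∧
      ∀ e ∈ 𝒜, e.card = r ∧ e.image bm = B) (hm : m ≤ N.choose s * ψ) :
    ∃ F : Finset (Finset (Fin n)), (∀ e ∈ F, e.card = r) ∧ (∀ e ∈ F, (e.image bm).card = s) ∧
      F.card = m ∧ ∀ b, (F.filter (fun e => b ∈ e.image bm)).card ≤ (2 * s * m + N) / N := by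
  by_cases hcase : m ≤ N.choose s
  · obtain ⟨𝓑, h𝓑s, h𝓑m, hdeg⟩ := exists_near_regular N s m hcase
    have hsel : ∀ B : Finset (Fin N), ∃ e : Finset (Fin n), B.card = s →
        (e.card = r ∧ e.image bm = B) := by
      intro B
      by_cases hB : B.card = s
      · obtain ⟨𝒜, h1, h2⟩ := hfull B hB
        obtain ⟨e, he⟩ := card_pos.1 (show 0 < 𝒜.card by omega)
        exact ⟨e, fun _ => h2 e he⟩
      · exact ⟨∅, fun h => absurd h hB⟩
    choose g hg using hsel
    have hinj : Set.InjOn g (𝓑 : Set (Finset (Fin N))) := by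
      intro B hB C hC h
      rw [← (hg B (h𝓑s B hB)).2, ← (hg C (h𝓑s C hC)).2, h]
    refine ⟨𝓑.image g, ?_, ?_, ?_, ?_⟩
    · intro e he
      obtain ⟨B, hB, rfl⟩ := mem_image.1 he
      exact (hg B (h𝓑s B hB)).1
    · intro e he
      obtain ⟨B, hB, rfl⟩ := mem_image.1 he
      rw [(hg B (h𝓑s B hB)).2, h𝓑s B hB]
    · rw [card_image_of_injOn hinj, h𝓑m]
    · intro b
      have h1 : (𝓑.image g).filter (fun e => b ∈ e.image bm) ⊆
          (𝓑.filter (fun B => b ∈ B)).image g := by
        intro e he
        rw [mem_filter] at he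
        obtain ⟨B, hB, rfl⟩ := mem_image.1 he.1
        rw [(hg B (h𝓑s B hB)).2] at he
        exact mem_image.2 ⟨B, mem_filter.2 ⟨hB, he.2⟩, rfl⟩
      have h2 : ((𝓑.image g).filter (fun e => b ∈ e.image bm)).card ≤ degr 𝓑 b :=
        (card_le_card h1).trans card_image_le
      refine h2.trans ?_
      rw [Nat.le_div_iff_mul_le (by omega)]
      have := hdeg b
      nlinarith
  · push Not at hcase
    have hc0 : 0 < N.choose s := by
      by_contra h
      have : N.choose s = 0 := by omega
      rw [this, zero_mul] at hm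
      omega
    -- q = ⌈m / C(N,s)⌉
    obtain ⟨q, hq1, hq2, hqψ⟩ : ∃ q, m ≤ N.choose s * q ∧ N.choose s * q ≤ m + N.choose s ∧
        q ≤ ψ := by
      refine ⟨(m + N.choose s - 1) / N.choose s, ?_, ?_, ?_⟩
      · have h1 := Nat.div_add_mod (m + N.choose s - 1) (N.choose s)
        have h2 := Nat.mod_lt (m + N.choose s - 1) hc0
        omega
      · have := Nat.mul_div_le (m + N.choose s - 1) (N.choose s)
        omega
      · rw [Nat.div_le_iff_le_mul_add_pred hc0]
        omega
    have hsel : ∀ B : Finset (Fin N), ∃ 𝒜 : Finset (Finset (Fin n)), B.card = s →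
        (𝒜.card = q ∧ ∀ e ∈ 𝒜, e.card = r ∧ e.image bm = B) := by
      intro B
      by_cases hB : B.card = s
      · obtain ⟨𝒜, h1, h2⟩ := hfull B hB
        obtain ⟨𝒜', h3, h4⟩ := exists_subset_card_eq (hqψ.trans h1)
        exact ⟨𝒜', fun _ => ⟨h4, fun e he => h2 e (h3 he)⟩⟩
      · exact ⟨∅, fun h => absurd h hB⟩
    choose 𝒜 h𝒜 using hsel
    let U := (powersetCard s (univ : Finset (Fin N))).biUnion 𝒜
    have hUc : U.card = N.choose s * q := by
      rw [card_biUnion]
      · rw [sum_congr rfl (fun B hB => (h𝒜 B (mem_powersetCard.1 hB).2).1), sum_const,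
          card_powersetCard, card_fin, smul_eq_mul]
      · intro B hB C hC hBC
        rw [Function.onFun, disjoint_left]
        rw [mem_coe] at hB hC
        intro e heB heC
        apply hBC
        rw [← ((h𝒜 B (mem_powersetCard.1 hB).2).2 e heB).2,
          ((h𝒜 C (mem_powersetCard.1 hC).2).2 e heC).2]
    obtain ⟨F, hFU, hFm⟩ := exists_subset_card_eq (show m ≤ U.card by rw [hUc]; exact hq1)
    have hUprop : ∀ e ∈ U, e.card = r ∧ (e.image bm).card = s := by
      intro e he
      obtain ⟨B, hB, heB⟩ := mem_biUnion.1 he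
      have h1 := (h𝒜 B (mem_powersetCard.1 hB).2).2 e heB
      refine ⟨h1.1, ?_⟩
      rw [h1.2]; exact (mem_powersetCard.1 hB).2
    refine ⟨F, fun e he => (hUprop e (hFU he)).1, fun e he => (hUprop e (hFU he)).2, hFm, ?_⟩
    intro b
    have h1 : F.filter (fun e => b ∈ e.image bm) ⊆
        ((powersetCard s (univ : Finset (Fin N))).filter (fun B => b ∈ B)).biUnion 𝒜 := by
      intro e he
      rw [mem_filter] at he
      obtain ⟨B, hB, heB⟩ := mem_biUnion.1 (hFU he.1)
      refine mem_biUnion.2 ⟨B, mem_filter.2 ⟨hB, ?_⟩, heB⟩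
      rw [← ((h𝒜 B (mem_powersetCard.1 hB).2).2 e heB).2]
      exact he.2
    have h2 : (F.filter (fun e => b ∈ e.image bm)).card ≤
        ((powersetCard s (univ : Finset (Fin N))).filter (fun B => b ∈ B)).card * q := by
      refine (card_le_card h1).trans (card_biUnion_le.trans ?_)
      rw [sum_congr rfl (fun B hB => (h𝒜 B (mem_powersetCard.1 (mem_filter.1 hB).1).2).1),
        sum_const, smul_eq_mul]
    have h3 : N * ((powersetCard s (univ : Finset (Fin N))).filter (fun B => b ∈ B)).card =
        s * N.choose s := by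
      -- double counting, using symmetry under swaps
      have h4 : ∀ b' : Fin N, degr (powersetCard s (univ : Finset (Fin N))) b' =
          degr (powersetCard s (univ : Finset (Fin N))) b := by
        intro b'
        unfold degr
        apply card_bij (fun B _ => B.map (Equiv.swap b' b).toEmbedding)
        · intro B hB
          simp only [mem_filter, mem_powersetCard, subset_univ, true_and] at hB ⊢
          refine ⟨by rw [card_map]; exact hB.1, ?_⟩
          rw [mem_map]
          exact ⟨b', hB.2, by simp⟩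
        · intro B _ C _ h
          exact map_injective _ h
        · intro C hC
          simp only [mem_filter, mem_powersetCard, subset_univ, true_and] at hC
          refine ⟨C.map (Equiv.swap b' b).toEmbedding, ?_, ?_⟩
          · simp only [mem_filter, mem_powersetCard, subset_univ, true_and]
            refine ⟨by rw [card_map]; exact hC.1, ?_⟩
            rw [mem_map]
            exact ⟨b, hC.2, by simp⟩
          · rw [map_map]
            ext x
            simp
      have h5 := sum_degr (powersetCard s (univ : Finset (Fin N)))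
        (fun B hB => (mem_powersetCard.1 hB).2)
      rw [sum_congr rfl (fun b' _ => h4 b'), sum_const, card_univ, Fintype.card_fin, smul_eq_mul,
        card_powersetCard, card_fin] at h5
      exact h5
    rw [Nat.le_div_iff_mul_le (by omega)]
    calc _ ≤ (((powersetCard s (univ : Finset (Fin N))).filter (fun B => b ∈ B)).card * q) * N :=
          Nat.mul_le_mul_right _ h2
      _ = (N * ((powersetCard s (univ : Finset (Fin N))).filter (fun B => b ∈ B)).card) * q := by
          ring
      _ = s * (N.choose s * q) := by rw [h3]; ring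
      _ ≤ s * (m + N.choose s) := Nat.mul_le_mul_left _ hq2
      _ ≤ s * (m + m) := Nat.mul_le_mul_left _ (by omega)
      _ ≤ 2 * s * m + N := by nlinarith

/-- General upper bound in terms of a block structure. -/
lemma fval_upper {d k s r n N m ψ : ℕ} (hd : 1 ≤ d) (hs : 1 ≤ s) (hks : k + s ≤ d)
    (hr : r ≤ d + 1) (hN : 1 ≤ N) (bm : Fin n → Fin N) (hψ : 1 ≤ ψ)
    (hfull : ∀ B : Finset (Fin N), B.card = s → ∃ 𝒜 : Finset (Finset (Fin n)), ψ ≤ 𝒜.card ∧
      ∀ e ∈ 𝒜, e.card = r ∧ e.image bm = B) (hm : m ≤ N.choose s * ψ) :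
    fval d r k m n ≤ (k + 1) * d * s * ((2 * s * m + N) / N) := by
  classical
  obtain ⟨F, h1, h2, h3, h4⟩ := exists_family hN bm hψ hfull hm
  refine fval_le_of_family hd hs hks hr bm F h1 h2 h3 _ ?_
  intro b
  convert h4 b

end Pool.Agent.H68
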