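import Mathlib
import Pool.Agent.H68.Upper

/-!
Explicit block structures and the resulting upper bounds for `f^k_{d,r}(m,n)`.
-/

open Module

namespace Pool.Agent.H68

open Finset

/-- the block of index `i` when the blocks have size `β` -/
def blockMap (n β : ℕ) (hN : 1 ≤ n / β) (i : Fin n) : Fin (n / β) :=
  ⟨min ((i : ℕ) / β) (n / β - 1), by omega⟩

/-- the `j`-th index of block `b` -/
def blockIdx {n β : ℕ} (b : Fin (n / β)) (j : Fin β) : Fin n :=
  ⟨b * β + j, by
    have h1 : (b : ℕ) + 1 ≤ n / β := b.2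
    have h2 : ((b : ℕ) + 1) * β ≤ n / β * β := Nat.mul_le_mul_right _ h1
    have h3 : n / β * β ≤ n := Nat.div_mul_le_self n β
    have h4 := j.2
    have h5 : ((b : ℕ) + 1) * β = b * β + β := by ring
    omega⟩

lemma blockMap_blockIdx {n β : ℕ} (hN : 1 ≤ n / β) (b : Fin (n / β)) (j : Fin β) :
    blockMap n β hN (blockIdx b j) = b := by
  have hβ : 0 < β := j.pos
  apply Fin.ext
  simp only [blockMap, blockIdx]
  have h1 : ((b : ℕ) * β + j) / β = b := by
    rw [mul_comm, Nat.mul_add_div hβ, Nat.div_eq_of_lt j.2, add_zero]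
  rw [h1]
  have := b.2
  omega

lemma blockIdx_inj {n β : ℕ} {b b' : Fin (n / β)} {j j' : Fin β}
    (h : blockIdx (n := n) b j = blockIdx b' j') : b = b' ∧ j = j' := by
  have hβ : 0 < β := j.pos
  have hN : 1 ≤ n / β := by have := b.2; omega
  have h1 : b = b' := by
    rw [← blockMap_blockIdx hN b j, ← blockMap_blockIdx hN b' j', h]
  subst h1
  refine ⟨rfl, ?_⟩
  have h2 := congrArg Fin.val h
  simp only [blockIdx] at h2
  exact Fin.ext (by omega)

/-- Every `s`-set of blocks of size `r * γ` carries at least `γ ^ r` sets of size `r` meeting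
exactly these blocks. -/
lemma full_family {n r γ s : ℕ} (hs : 1 ≤ s) (hsr : s ≤ r) (hγ : 1 ≤ γ)
    (hN : 1 ≤ n / (r * γ)) (B : Finset (Fin (n / (r * γ)))) (hB : B.card = s) :
    ∃ 𝒜 : Finset (Finset (Fin n)), γ ^ r ≤ 𝒜.card ∧
      ∀ e ∈ 𝒜, e.card = r ∧ e.image (blockMap n (r * γ) hN) = B := by
  classical
  let ι : Fin r → Fin (n / (r * γ)) := fun l => B.orderEmbOfFin hB ⟨min l (s - 1), by omega⟩
  have hιB : ∀ l, ι l ∈ B := fun l => orderEmbOfFin_mem _ _ _
  let pos : (Fin r → Fin γ) → Fin r → Fin (r * γ) := fun g l => ⟨l * γ + g l, by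
    have h1 : (l : ℕ) + 1 ≤ r := l.2
    have h2 : ((l : ℕ) + 1) * γ ≤ r * γ := Nat.mul_le_mul_right _ h1
    have h3 := (g l).2
    have h4 : ((l : ℕ) + 1) * γ = l * γ + γ := by ring
    omega⟩
  have hpos : ∀ g g' l l', pos g l = pos g' l' → l = l' ∧ g l = g' l' := by
    intro g g' l l' h
    have h1 := congrArg Fin.val h
    simp only [pos] at h1
    have h2 : ((l : ℕ) * γ + g l) / γ = l := by
      rw [mul_comm, Nat.mul_add_div (by omega), Nat.div_eq_of_lt (g l).2, add_zero]
    have h3 : ((l' : ℕ) * γ + g' l') / γ = l' := by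
      rw [mul_comm, Nat.mul_add_div (by omega), Nat.div_eq_of_lt (g' l').2, add_zero]
    have h4 : (l : ℕ) = l' := by rw [← h2, ← h3, h1]
    refine ⟨Fin.ext h4, ?_⟩
    rw [h4] at h1
    exact Fin.ext (by omega)
  let a : (Fin r → Fin γ) → Fin r → Fin n := fun g l => blockIdx (ι l) (pos g l)
  have ha : ∀ g g' l l', a g l = a g' l' → l = l' ∧ g l = g' l' := by
    intro g g' l l' h
    exact hpos g g' l l' (blockIdx_inj h).2
  let E : (Fin r → Fin γ) → Finset (Fin n) := fun g => univ.image (a g)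
  have hEinj : Function.Injective E := by
    intro g g' h
    funext l
    have h1 : a g l ∈ E g := mem_image_of_mem _ (mem_univ l)
    rw [h] at h1
    obtain ⟨l', _, h2⟩ := mem_image.1 h1
    obtain ⟨h3, h4⟩ := ha g' g l' l h2
    rw [← h4, h3]
  refine ⟨univ.image E, ?_, ?_⟩
  · rw [card_image_of_injective _ hEinj]
    simp
  · intro e he
    obtain ⟨g, _, rfl⟩ := mem_image.1 he
    constructor
    · simp only [E]
      rw [card_image_of_injective]
      · simp
      · intro l l' h
        exact (ha g g l l' h).1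
    · ext b
      simp only [E, a, mem_image, mem_univ, true_and]
      constructor
      · rintro ⟨_, ⟨l, rfl⟩, rfl⟩
        rw [blockMap_blockIdx]
        exact hιB l
      · intro hb
        have h1 : b ∈ univ.map (B.orderEmbOfFin hB).toEmbedding := by
          rw [map_orderEmbOfFin_univ]; exact hb
        obtain ⟨x, _, hx⟩ := mem_map.1 h1
        refine ⟨_, ⟨⟨x, by omega⟩, rfl⟩, ?_⟩
        rw [blockMap_blockIdx]
        rw [← hx]
        simp only [ι]
        have h2 : (⟨min (x : ℕ) (s - 1), by omega⟩ : Fin s) = x := by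
          apply Fin.ext
          simp only
          omega
        show (B.orderEmbOfFin hB) _ = (B.orderEmbOfFin hB) x
        rw [h2]

/-- Upper bound when `s = r` (no blocks). -/
lemma fval_upper_one {d k r n m : ℕ} (hd : 1 ≤ d) (hr : 1 ≤ r) (hkr : k + r ≤ d)
    (hn : 1 ≤ n) (hm : m ≤ n.choose r) :
    fval d r k m n ≤ (k + 1) * d * r * ((2 * r * m + n) / n) := by
  classical
  refine fval_upper (ψ := 1) hd hr hkr (by omega) hn (id : Fin n → Fin n) le_rfl ?_ (by simpa)
  intro B hB
  refine ⟨{B}, by simp, ?_⟩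
  intro e he
  rw [mem_singleton] at he
  subst he
  exact ⟨hB, image_id⟩

/-- Upper bound from blocks of size `r * γ`. -/
lemma fval_upper_block {d k r s γ n m : ℕ} (hd : 1 ≤ d) (hs : 1 ≤ s) (hsr : s ≤ r)
    (hr : r ≤ d + 1) (hks : k + s ≤ d) (hγ : 1 ≤ γ) (hN : 1 ≤ n / (r * γ))
    (hm : m ≤ (n / (r * γ)).choose s * γ ^ r) :
    fval d r k m n ≤ (k + 1) * d * s * ((2 * s * m + n / (r * γ)) / (n / (r * γ))) :=
  fval_upper hd hs hks hr hN (blockMap n (r * γ) hN) (Nat.one_le_pow _ _ hγ)
    (full_family hs hsr hγ hN) hm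

end Pool.Agent.H68
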