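import Mathlib
import Pool.Agent.H68.Upper2

/-!
Real-number versions of the upper bounds and the trivial lower bound.
-/

open Module

namespace Pool.Agent.H68

open Finset

lemma exists_flat_through {d k : ℕ} (hk : k ≤ d) (x : Pt d) :
    ∃ L : AffineSubspace ℝ (Pt d), IsFlat k L ∧ x ∈ L := by
  let b := (EuclideanSpace.basisFun (Fin d) ℝ).toBasis
  have hI : LinearIndependent ℝ (fun i : Fin k => b (Fin.castLE hk i)) :=
    b.linearIndependent.comp _ (Fin.castLE_injective hk)
  have hf := finrank_span_eq_card hI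
  refine ⟨AffineSubspace.mk' x (Submodule.span ℝ (Set.range fun i : Fin k =>
    b (Fin.castLE hk i))), ⟨⟨x, AffineSubspace.self_mem_mk' _ _⟩, ?_⟩,
    AffineSubspace.self_mem_mk' _ _⟩
  rw [AffineSubspace.direction_mk', hf]
  simp

/-- degree sum -/
lemma sum_deg_eq {d r : ℕ} (G : GeomHyp d r) :
    ∑ x ∈ G.V, (G.E.filter (fun e => x ∈ e)).card = r * G.E.card := by
  classical
  simp only [card_filter]
  rw [sum_comm]
  have : ∀ e ∈ G.E, (∑ x ∈ G.V, if x ∈ e then 1 else 0) = r := by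
    intro e he
    have h0 := G.card_eq e he
    rw [← card_filter]
    refine Eq.trans ?_ h0
    congr 1
    ext x
    rw [mem_filter]
    exact ⟨fun h => h.2, fun h => ⟨G.subV e he h, h⟩⟩
  rw [sum_congr rfl this, sum_const, smul_eq_mul, mul_comm]

/-- The trivial lower bound. -/
lemma fval_lower_deg {d r k n m : ℕ} (hd : 1 ≤ d) (hr : r ≤ d + 1) (hk : k ≤ d)
    (hn : 1 ≤ n) (hm : m ≤ n.choose r) : r * m ≤ n * fval d r k m n := by
  classical
  have h : (r * m + n - 1) / n ≤ fval d r k m n := by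
    apply le_fval (exists_geomHyp hd hr hm)
    intro G hGn hGm
    have hex : ∃ x ∈ G.V, r * m ≤ n * (G.E.filter (fun e => x ∈ e)).card := by
      by_contra hcon
      push Not at hcon
      have h1 : ∑ x ∈ G.V, n * (G.E.filter (fun e => x ∈ e)).card < ∑ x ∈ G.V, r * m := by
        apply sum_lt_sum_of_nonempty
        · exact card_pos.1 (by omega)
        · exact hcon
      rw [← mul_sum, sum_deg_eq, sum_const, hGn, hGm, smul_eq_mul] at h1
      exact lt_irrefl _ h1
    obtain ⟨x, hxV, hx⟩ := hex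
    obtain ⟨L, hL, hxL⟩ := exists_flat_through hk x
    refine ⟨L, hL, ?_⟩
    have h2 : (G.E.filter (fun e => x ∈ e)).card ≤ numMet G L := by
      unfold numMet
      rw [← Set.ncard_coe_finset]
      apply Set.ncard_le_ncard _ (Set.Finite.subset (G.E.finite_toSet) (fun e he => he.1))
      intro e he
      rw [coe_filter] at he
      refine ⟨he.1, x, hxL, ?_⟩
      exact subset_convexHull ℝ _ he.2
    refine le_trans ?_ h2
    rw [Nat.div_le_iff_le_mul_add_pred (by omega)]
    omega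
  have h1 : r * m ≤ n * ((r * m + n - 1) / n) := by
    have h1 := Nat.div_add_mod (r * m + n - 1) n
    have h2 := Nat.mod_lt (r * m + n - 1) (show 0 < n by omega)
    omega
  exact h1.trans (Nat.mul_le_mul_left _ h)

/-- real form of the trivial lower bound -/
lemma fval_lower_real {d r k n m : ℕ} (hd : 1 ≤ d) (hr1 : 1 ≤ r) (hr : r ≤ d + 1) (hk : k ≤ d)
    (hm1 : 1 ≤ m) (hm : m ≤ n.choose r) :
    max 1 ((m : ℝ) / n) ≤ (fval d r k m n : ℝ) := by
  have hn : 1 ≤ n := by
    by_contra h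
    have : n = 0 := by omega
    subst this
    rw [Nat.choose_eq_zero_of_lt (by omega)] at hm
    omega
  have h := fval_lower_deg (k := k) hd hr hk hn hm
  have hpos : 0 < fval d r k m n := by
    by_contra h0
    have : fval d r k m n = 0 := by omega
    rw [this, mul_zero] at h
    have : 0 < r * m := Nat.mul_pos (by omega) (by omega)
    omega
  apply max_le
  · exact_mod_cast hpos
  · rw [div_le_iff₀ (by exact_mod_cast hn)]
    have h2 : m ≤ fval d r k m n * n := by nlinarith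
    exact_mod_cast h2

/-- trivial upper bound -/
lemma fval_le_m {d r k n m : ℕ} (hd : 1 ≤ d) (hr : r ≤ d + 1) (hm : m ≤ n.choose r) :
    fval d r k m n ≤ m := by
  obtain ⟨G, hn, hm⟩ := exists_geomHyp hd hr hm
  apply fval_le G hn hm
  intro L _
  exact (numMet_le G L).trans hm.le

/-- upper bound for `k + r ≤ d`, real form -/
lemma fval_upper_one_real {d k r : ℕ} (hd : 1 ≤ d) (hr : 1 ≤ r) (hkr : k + r ≤ d) {n m : ℕ}
    (hm1 : 1 ≤ m) (hm : m ≤ n.choose r) :
    (fval d r k m n : ℝ) ≤ ((k + 1) * d * r * (2 * r + 1) : ℝ) * max 1 ((m : ℝ) / n) := by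
  have hn : 1 ≤ n := by
    by_contra h
    have : n = 0 := by omega
    subst this
    rw [Nat.choose_eq_zero_of_lt (by omega)] at hm
    omega
  have h := fval_upper_one hd hr hkr hn hm
  have hn0 : (0 : ℝ) < n := by exact_mod_cast hn
  have h1 : (((2 * r * m + n) / n : ℕ) : ℝ) ≤ (2 * r * m + n : ℝ) / n := by
    have := @Nat.cast_div_le ℝ _ _ _ (2 * r * m + n) n
    push_cast at this
    exact this
  have h2 : (2 * r * m + n : ℝ) / n = 2 * r * (m / n) + 1 := by field_simp
  have h3 : (2 * r * (m / n) + 1 : ℝ) ≤ (2 * r + 1) * max 1 ((m : ℝ) / n) := by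
    have a1 := le_max_left (1 : ℝ) ((m : ℝ) / n)
    have a2 := le_max_right (1 : ℝ) ((m : ℝ) / n)
    have : (0 : ℝ) ≤ 2 * r := by positivity
    nlinarith
  calc (fval d r k m n : ℝ) ≤ (((k + 1) * d * r * ((2 * r * m + n) / n) : ℕ) : ℝ) := by
        exact_mod_cast h
    _ = ((k + 1) * d * r : ℝ) * (((2 * r * m + n) / n : ℕ) : ℝ) := by push_cast; ring
    _ ≤ ((k + 1) * d * r : ℝ) * ((2 * r + 1) * max 1 ((m : ℝ) / n)) := by
        apply mul_le_mul_of_nonneg_left _ (by positivity)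
        exact (h1.trans h2.le).trans h3
    _ = _ := by ring

lemma choose_lower {N s : ℕ} (hs : 1 ≤ s) (hN : s ≤ N) :
    (N : ℝ) ^ s ≤ ((s : ℝ) ^ s * (s.factorial : ℝ)) * (N.choose s : ℝ) := by
  have h1 : ((N + 1 - s : ℕ) : ℝ) ^ s / (s.factorial : ℝ) ≤ (N.choose s : ℝ) :=
    Nat.pow_le_choose s N
  have h2 : (N : ℝ) ≤ s * ((N + 1 - s : ℕ) : ℝ) := by
    have : N ≤ s * (N + 1 - s) := by
      obtain ⟨c, rfl⟩ : ∃ c, N = s + c := ⟨N - s, by omega⟩
      have : s + c + 1 - s = c + 1 := by omega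
      rw [this]
      nlinarith
    exact_mod_cast this
  have hf : (0 : ℝ) < (s.factorial : ℝ) := by exact_mod_cast s.factorial_pos
  rw [div_le_iff₀ hf] at h1
  calc (N : ℝ) ^ s ≤ (s * ((N + 1 - s : ℕ) : ℝ)) ^ s := by gcongr
    _ = (s : ℝ) ^ s * ((N + 1 - s : ℕ) : ℝ) ^ s := by rw [mul_pow]
    _ ≤ (s : ℝ) ^ s * ((N.choose s : ℝ) * (s.factorial : ℝ)) := by gcongr
    _ = _ := by ring

/-- The main real-valued upper bound: if `m ≤ n^s x^{r-s}` with `x ≥ 1` then
`f ≤ C ((m/n) x + 1)`. -/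
lemma fval_upper_real {d k r s : ℕ} (hd : 1 ≤ d) (hs : 1 ≤ s) (hsr : s < r)
    (hr : r ≤ d + 1) (hks : k + s ≤ d) :
    ∃ C : ℝ, 0 < C ∧ ∀ n m : ℕ, 1 ≤ m → m ≤ n.choose r → ∀ x : ℝ, 1 ≤ x →
      (m : ℝ) ≤ (n : ℝ) ^ s * x ^ (r - s) →
      (fval d r k m n : ℝ) ≤ C * ((m : ℝ) / n * x + 1) := by
  set A : ℕ := (2 * r * s) ^ s * s.factorial with hA
  have hA1 : 1 ≤ A := by
    rw [hA]
    have h1 : 0 < 2 * r * s := Nat.mul_pos (by omega) (by omega)
    exact Nat.mul_pos (Nat.pow_pos h1) (s.factorial_pos)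
  have hA0 : (0 : ℝ) < A := by exact_mod_cast hA1
  have hs0 : (0 : ℝ) < s := by exact_mod_cast hs
  have hr0 : (0 : ℝ) < r := by exact_mod_cast (show 0 < r by omega)
  refine ⟨(k + 1) * d * s * (8 * s * r * A) + (k + 1) * d * s + 2 * r * s * A, by positivity, ?_⟩
  intro n m hm1 hm x hx hmx
  have hn : 1 ≤ n := by
    by_contra h
    have : n = 0 := by omega
    subst this
    rw [Nat.choose_eq_zero_of_lt (by omega)] at hm
    omega
  have hn0 : (0 : ℝ) < n := by exact_mod_cast hn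
  have hA1' : (1 : ℝ) ≤ A := by exact_mod_cast hA1
  set γ : ℕ := ⌈(A : ℝ) * x⌉₊ with hγ
  have hγ1 : (A : ℝ) * x ≤ γ := Nat.le_ceil _
  have hγ2 : (γ : ℝ) ≤ 2 * A * x := by
    have := Nat.ceil_lt_add_one (show (0:ℝ) ≤ (A : ℝ) * x by positivity)
    have h1 : (1 : ℝ) ≤ A * x := by nlinarith
    rw [← hγ] at this
    linarith
  have hγpos : 1 ≤ γ := by
    rw [hγ, Nat.one_le_ceil_iff]
    positivity
  have hrpos : 1 ≤ r := by omega
  have hmn : (0 : ℝ) ≤ (m : ℝ) / n * x := by positivity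
  by_cases hcase : r * γ * s ≤ n
  · -- enough blocks
    have hNs : s ≤ n / (r * γ) := by
      rw [Nat.le_div_iff_mul_le (by positivity)]
      calc s * (r * γ) = r * γ * s := by ring
        _ ≤ n := hcase
    have hN1 : 1 ≤ n / (r * γ) := by omega
    set N := n / (r * γ) with hN
    have hN2 : (n : ℝ) ≤ 2 * r * γ * N := by
      have h1 : n < (r * γ) * (N + 1) := by
        rw [hN]
        have := Nat.lt_mul_div_succ n (show 0 < r * γ by positivity)
        simpa using this
      have h2 : (r * γ) * (N + 1) ≤ 2 * r * γ * N := by nlinarith [Nat.mul_le_mul_left (r*γ) hN1]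
      exact_mod_cast (h1.le.trans h2)
    have hN0 : (0 : ℝ) < N := by exact_mod_cast hN1
    have hmle : m ≤ N.choose s * γ ^ r := by
      have h1 := choose_lower hs hNs
      have h2 : (n : ℝ) ^ s ≤ (2 * r * γ * N : ℝ) ^ s := by gcongr
      have h3 : (x : ℝ) ^ (r - s) * (A : ℝ) ≤ (γ : ℝ) ^ (r - s) := by
        calc (x : ℝ) ^ (r - s) * (A : ℝ) ≤ x ^ (r - s) * (A : ℝ) ^ (r - s) := by
              gcongr
              exact le_self_pow₀ hA1' (by omega)
          _ = ((A : ℝ) * x) ^ (r - s) := by rw [mul_pow]; ring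
          _ ≤ _ := by gcongr
      have h4 : (m : ℝ) * A ≤ (N.choose s * γ ^ r : ℝ) * A := by
        calc (m : ℝ) * A ≤ ((n : ℝ) ^ s * x ^ (r - s)) * A := by gcongr
          _ = (n : ℝ) ^ s * (x ^ (r - s) * A) := by ring
          _ ≤ (2 * r * γ * N : ℝ) ^ s * (γ : ℝ) ^ (r - s) := by gcongr
          _ = (2 * r : ℝ) ^ s * γ ^ s * (N : ℝ) ^ s * (γ : ℝ) ^ (r - s) := by
              rw [mul_pow, mul_pow]
          _ = (2 * r : ℝ) ^ s * (N : ℝ) ^ s * ((γ : ℝ) ^ s * (γ : ℝ) ^ (r - s)) := by ring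
          _ = (2 * r : ℝ) ^ s * (N : ℝ) ^ s * (γ : ℝ) ^ r := by
              rw [← pow_add]; congr 2; omega
          _ ≤ (2 * r : ℝ) ^ s * (((s : ℝ) ^ s * (s.factorial : ℝ)) * (N.choose s : ℝ)) *
                (γ : ℝ) ^ r := by gcongr
          _ = (N.choose s * γ ^ r : ℝ) * A := by
              rw [hA]; push_cast; rw [mul_pow, mul_pow, mul_pow]; ring
      have h5 : (m : ℝ) ≤ (N.choose s * γ ^ r : ℝ) := by
        have : (0 : ℝ) < A := by linarith
        exact le_of_mul_le_mul_right h4 this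
      exact_mod_cast h5
    have h := fval_upper_block hd hs hsr.le hr hks hγpos hN1 hmle
    rw [← hN] at h
    have h1 : (((2 * s * m + N) / N : ℕ) : ℝ) ≤ (2 * s * m + N : ℝ) / N := by
      have := @Nat.cast_div_le ℝ _ _ _ (2 * s * m + N) N
      push_cast at this
      exact this
    have h2 : (2 * s * m + N : ℝ) / N = 2 * s * (m / N) + 1 := by field_simp
    have h3 : (m : ℝ) / N ≤ 4 * r * A * ((m : ℝ) / n * x) := by
      rw [div_le_iff₀ hN0]
      have : (n : ℝ) ≤ 4 * r * A * x * N := by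
        calc (n : ℝ) ≤ 2 * r * γ * N := hN2
          _ ≤ 2 * r * (2 * A * x) * N := by gcongr
          _ = _ := by ring
      calc (m : ℝ) = m / n * n := by field_simp
        _ ≤ m / n * (4 * r * A * x * N) := by gcongr
        _ = _ := by ring
    calc (fval d r k m n : ℝ) ≤ (((k + 1) * d * s * ((2 * s * m + N) / N) : ℕ) : ℝ) := by
          exact_mod_cast h
      _ = ((k + 1) * d * s : ℝ) * (((2 * s * m + N) / N : ℕ) : ℝ) := by push_cast; ring
      _ ≤ ((k + 1) * d * s : ℝ) * (2 * s * (4 * r * A * ((m : ℝ) / n * x)) + 1) := by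
          apply mul_le_mul_of_nonneg_left _ (by positivity)
          refine (h1.trans h2.le).trans ?_
          gcongr
      _ ≤ _ := by
          have e1 : (0 : ℝ) ≤ (k + 1) * d * s := by positivity
          have e2 : (0 : ℝ) ≤ 2 * r * s * A := by positivity
          have e3 : (0 : ℝ) ≤ (k + 1) * d * s * (8 * s * r * A) := by positivity
          nlinarith [mul_nonneg e1 hmn, mul_nonneg e2 hmn]
  · -- few blocks: `n` is at most a constant times `x`
    push Not at hcase
    have h1 : (n : ℝ) ≤ 2 * r * s * A * x := by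
      have : (n : ℝ) ≤ r * γ * s := by exact_mod_cast hcase.le
      calc (n : ℝ) ≤ r * γ * s := this
        _ ≤ r * (2 * A * x) * s := by gcongr
        _ = _ := by ring
    have h2 : (fval d r k m n : ℝ) ≤ m := by exact_mod_cast fval_le_m hd hr hm
    have h3 : (m : ℝ) ≤ 2 * r * s * A * ((m : ℝ) / n * x) := by
      calc (m : ℝ) = m / n * n := by field_simp
        _ ≤ m / n * (2 * r * s * A * x) := by gcongr
        _ = _ := by ring
    have e1 : (0 : ℝ) ≤ (k + 1) * d * s := by positivity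
    have e2 : (0 : ℝ) ≤ 2 * r * s * A := by positivity
    have e3 : (0 : ℝ) ≤ (k + 1) * d * s * (8 * s * r * A) := by positivity
    nlinarith [mul_nonneg e1 hmn, mul_nonneg e3 hmn]

end Pool.Agent.H68
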