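import Mathlib
import Pool.Agent.H68.Real

/-!
Hyperplanes: lower bound by projection to a line.
-/

open Module

namespace Pool.Agent.H68

open Finset

/-- hyperplane `{x : x_0 = a}` -/
lemma exists_hyperplane {d : ℕ} (p : Pt (d + 1)) :
    ∃ L : AffineSubspace ℝ (Pt (d + 1)), IsFlat d L ∧ ∀ x : Pt (d + 1), x ∈ L ↔ x 0 = p 0 := by
  let φ : Pt (d + 1) →ₗ[ℝ] ℝ := (EuclideanSpace.proj (0 : Fin (d+1)) :
    EuclideanSpace ℝ (Fin (d+1)) →L[ℝ] ℝ).toLinearMap
  have hφ : ∀ x, φ x = x 0 := fun x => rfl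
  have hsurj : Function.Surjective φ := by
    intro a
    refine ⟨EuclideanSpace.single 0 a, ?_⟩
    rw [hφ]; simp
  refine ⟨AffineSubspace.mk' p (LinearMap.ker φ), ⟨⟨p, AffineSubspace.self_mem_mk' _ _⟩, ?_⟩, ?_⟩
  · rw [AffineSubspace.direction_mk']
    have h1 := LinearMap.finrank_range_add_finrank_ker φ
    rw [LinearMap.range_eq_top.2 hsurj, finrank_top, finrank_self, finrank_euclideanSpace_fin] at h1
    omega
  · intro x
    rw [AffineSubspace.mem_mk', LinearMap.mem_ker, vsub_eq_sub, map_sub, hφ, hφ, sub_eq_zero]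

/-- the number of `r+1`-sets of span at most `ℓ` -/
lemma card_small_span {n r ℓ : ℕ} (𝒜 : Finset (Finset (Fin n)))
    (h𝒜 : ∀ I ∈ 𝒜, I.card = r + 1) (hspan : ∀ I ∈ 𝒜, ∀ a ∈ I, ∀ b ∈ I, (b : ℕ) ≤ a + ℓ) :
    𝒜.card ≤ n * ℓ ^ r := by
  classical
  have hne : ∀ I ∈ 𝒜, I.Nonempty := fun I hI => card_pos.1 (by rw [h𝒜 I hI]; omega)
  let g : Finset (Fin n) → ℕ × Finset ℕ := fun I =>
    if h : I.Nonempty then
      ((I.min' h : ℕ), (I.erase (I.min' h)).image (fun b : Fin n => (b : ℕ) - (I.min' h) - 1))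
    else (0, ∅)
  have hmaps : ∀ I ∈ 𝒜, g I ∈ range n ×ˢ powersetCard r (range ℓ) := by
    intro I hI
    simp only [g]
    rw [dif_pos (hne I hI), mem_product]
    refine ⟨mem_range.2 (I.min' _).2, ?_⟩
    rw [mem_powersetCard]
    have hlt : ∀ b ∈ I.erase (I.min' (hne I hI)), (I.min' (hne I hI) : ℕ) < b := by
      intro b hb
      have h1 := I.min'_lt_of_mem_erase_min' (hne I hI) hb
      exact h1
    constructor
    · intro x hx
      obtain ⟨b, hb, rfl⟩ := mem_image.1 hx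
      have h1 := hlt b hb
      have h2 := hspan I hI _ (min'_mem I (hne I hI)) b (mem_of_mem_erase hb)
      rw [mem_range]
      omega
    · rw [card_image_of_injOn, card_erase_of_mem (min'_mem _ _), h𝒜 I hI]
      · rfl
      · intro b hb c hc hbc
        have h1 := hlt b hb
        have h2 := hlt c hc
        simp only at hbc
        exact Fin.ext (by omega)
  have hinj : Set.InjOn g (𝒜 : Set (Finset (Fin n))) := by
    intro I hI J hJ hIJ
    simp only [g] at hIJ
    rw [dif_pos (hne I hI), dif_pos (hne J hJ), Prod.mk.injEq] at hIJ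
    obtain ⟨h1, h2⟩ := hIJ
    have h1' : I.min' (hne I hI) = J.min' (hne J hJ) := Fin.ext h1
    have key : ∀ (P Q : Finset (Fin n)) (hP : P.Nonempty) (hQ : Q.Nonempty),
        P.min' hP = Q.min' hQ →
        (P.erase (P.min' hP)).image (fun b : Fin n => (b : ℕ) - (P.min' hP) - 1) =
        (Q.erase (Q.min' hQ)).image (fun b : Fin n => (b : ℕ) - (Q.min' hQ) - 1) → P ⊆ Q := by
      intro P Q hP hQ e1 e2 x hx
      by_cases hxm : x = P.min' hP
      · rw [hxm, e1]; exact min'_mem _ _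
      · have hx' : x ∈ P.erase (P.min' hP) := mem_erase.2 ⟨hxm, hx⟩
        have hxlt := P.min'_lt_of_mem_erase_min' hP hx'
        have h3 : (x : ℕ) - (P.min' hP) - 1 ∈
            (Q.erase (Q.min' hQ)).image (fun b : Fin n => (b : ℕ) - (Q.min' hQ) - 1) := by
          rw [← e2]; exact mem_image_of_mem (fun b : Fin n => (b : ℕ) - (P.min' hP) - 1) hx'
        obtain ⟨y, hy, hyx⟩ := mem_image.1 h3
        have hylt := Q.min'_lt_of_mem_erase_min' hQ hy
        rw [← e1] at hyx hylt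
        have : y = x := Fin.ext (by
          have a1 : (P.min' hP : ℕ) < y := hylt
          have a2 : (P.min' hP : ℕ) < x := hxlt
          omega)
        rw [← this]
        exact mem_of_mem_erase hy
    exact Subset.antisymm (key I J _ _ h1' h2) (key J I _ _ h1'.symm h2.symm)
  calc 𝒜.card ≤ (range n ×ˢ powersetCard r (range ℓ)).card :=
        card_le_card_of_injOn g hmaps hinj
    _ = n * ℓ.choose r := by rw [card_product, card_range, card_powersetCard, card_range]
    _ ≤ n * ℓ ^ r := Nat.mul_le_mul_left _ (Nat.choose_le_pow ℓ r)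

lemma exists_sorted {d n : ℕ} (V : Finset (Pt (d + 1))) (hV : V.card = n) :
    ∃ u : Fin n → Pt (d + 1), Function.Injective u ∧ (∀ x, x ∈ V ↔ ∃ i, u i = x) ∧
      Monotone (fun i => (u i) 0) := by
  let e0 : Fin n ≃ V := (Fintype.equivFinOfCardEq (by simpa using hV)).symm
  let f0 : Fin n → ℝ := fun i => (e0 i : Pt (d+1)) 0
  refine ⟨fun i => (e0 (Tuple.sort f0 i) : Pt (d+1)), ?_, ?_, ?_⟩
  · intro i j h
    have h1 := Subtype.ext h
    exact (Tuple.sort f0).injective (e0.injective h1)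
  · intro x
    constructor
    · intro hx
      obtain ⟨i, hi⟩ := e0.surjective ⟨x, hx⟩
      obtain ⟨j, rfl⟩ := (Tuple.sort f0).surjective i
      refine ⟨j, ?_⟩
      show (e0 (Tuple.sort f0 j) : Pt (d+1)) = x
      rw [hi]
    · rintro ⟨i, rfl⟩
      exact (e0 _).2
  · exact Tuple.monotone_sort f0

open Classical in
lemma hyper_lower {d r n m : ℕ} (G : GeomHyp (d + 1) (r + 1)) (hn : G.V.card = n) (hn1 : 1 ≤ n)
    (hm : G.E.card = m) (ℓ : ℕ) :
    ∃ L : AffineSubspace ℝ (Pt (d + 1)), IsFlat d L ∧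
      (m - n * ℓ ^ r) * (ℓ + 1) ≤ n * numMet G L := by
  obtain ⟨u, uinj, uV, umono⟩ := exists_sorted G.V hn
  let idx : Finset (Pt (d + 1)) → Finset (Fin n) := fun e => univ.filter (fun i => u i ∈ e)
  have hidx : ∀ e ∈ G.E, (idx e).image u = e := by
    intro e he
    ext x
    simp only [idx, mem_image, mem_filter, mem_univ, true_and]
    constructor
    · rintro ⟨i, hi, rfl⟩; exact hi
    · intro hx
      obtain ⟨i, rfl⟩ := (uV x).1 (G.subV e he hx)
      exact ⟨i, hx, rfl⟩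
  have hidxc : ∀ e ∈ G.E, (idx e).card = r + 1 := by
    intro e he
    have h1 : ((idx e).image u).card = (idx e).card := card_image_of_injective _ uinj
    have h2 : ((idx e).image u).card = r + 1 := by
      have h3 := G.card_eq e he
      rw [hidx e he]
      exact h3
    omega
  have hidxinj : Set.InjOn idx (G.E : Set (Finset (Pt (d + 1)))) := by
    intro e he e' he' h
    rw [← hidx e he, ← hidx e' he', h]
  choose L hL hLmem using fun i : Fin n => exists_hyperplane (u i)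
  -- edges whose index set spans `i` meet `L i`
  have hmeet : ∀ i, ∀ e ∈ G.E, (∃ a ∈ idx e, ∃ b ∈ idx e, a ≤ i ∧ i ≤ b) → Meets (L i) e := by
    rintro i e he ⟨a, ha, b, hb, hai, hib⟩
    simp only [idx, mem_filter, mem_univ, true_and] at ha hb
    have h1 : (u a) 0 ≤ (u i) 0 := umono hai
    have h2 : (u i) 0 ≤ (u b) 0 := umono hib
    have h3 : (u i) 0 ∈ segment ℝ ((u a) 0) ((u b) 0) := by
      rw [segment_eq_Icc (h1.trans h2)]
      exact ⟨h1, h2⟩
    obtain ⟨s, t, hs, ht, hst, hx⟩ := h3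
    refine ⟨s • u a + t • u b, ?_, ?_⟩
    · show s • u a + t • u b ∈ L i
      rw [hLmem]
      rw [← hx]
      simp
    · exact (convex_convexHull ℝ _) (subset_convexHull ℝ _ ha) (subset_convexHull ℝ _ hb) hs ht hst
  -- lower bound for the number of edges met by `L i`
  have hnum : ∀ i, (G.E.filter (fun e => ∃ a ∈ idx e, ∃ b ∈ idx e, a ≤ i ∧ i ≤ b)).card ≤
      numMet G (L i) := by
    intro i
    unfold numMet
    rw [← Set.ncard_coe_finset]
    apply Set.ncard_le_ncard _ (Set.Finite.subset (G.E.finite_toSet) (fun e he => he.1))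
    intro e he
    rw [coe_filter] at he
    exact ⟨he.1, hmeet i e he.1 he.2⟩
  -- edges of large span
  let big := G.E.filter (fun e => ∃ a ∈ idx e, ∃ b ∈ idx e, (a : ℕ) + ℓ < b)
  have hbig : m - n * ℓ ^ r ≤ big.card := by
    have h1 : (G.E.filter (fun e => ¬ ∃ a ∈ idx e, ∃ b ∈ idx e, (a : ℕ) + ℓ < b)).card ≤
        n * ℓ ^ r := by
      rw [← card_image_of_injOn (f := idx) (hidxinj.mono (by
        intro e he
        rw [coe_filter] at he
        exact he.1))]
      apply card_small_span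
      · intro I hI
        obtain ⟨e, he, rfl⟩ := mem_image.1 hI
        exact hidxc e (mem_filter.1 he).1
      · intro I hI a ha b hb
        obtain ⟨e, he, rfl⟩ := mem_image.1 hI
        have h2 := (mem_filter.1 he).2
        push Not at h2
        exact h2 a ha b hb
    have h2 := card_filter_add_card_filter_not (s := G.E)
      (fun e => ∃ a ∈ idx e, ∃ b ∈ idx e, (a : ℕ) + ℓ < b)
    rw [hm] at h2
    simp only [big]
    omega
  -- double counting
  have hsum : big.card * (ℓ + 1) ≤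
      ∑ i : Fin n, (G.E.filter (fun e => ∃ a ∈ idx e, ∃ b ∈ idx e, a ≤ i ∧ i ≤ b)).card := by
    simp only [card_filter]
    rw [sum_comm]
    calc big.card * (ℓ + 1) = ∑ e ∈ big, (ℓ + 1) := by rw [sum_const, smul_eq_mul]
      _ ≤ ∑ e ∈ big, ∑ i : Fin n, (if ∃ a ∈ idx e, ∃ b ∈ idx e, a ≤ i ∧ i ≤ b then 1 else 0) := by
          apply sum_le_sum
          intro e he
          rw [← card_filter]
          obtain ⟨a, ha, b, hb, hab⟩ := (mem_filter.1 he).2
          have h1 : Icc a b ⊆ univ.filter (fun i => ∃ a ∈ idx e, ∃ b ∈ idx e, a ≤ i ∧ i ≤ b) := by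
            intro i hi
            rw [mem_Icc] at hi
            exact mem_filter.2 ⟨mem_univ _, a, ha, b, hb, hi.1, hi.2⟩
          refine le_trans ?_ (card_le_card h1)
          rw [Fin.card_Icc]
          omega
      _ ≤ _ := by
          apply sum_le_sum_of_subset
          exact filter_subset _ _
  -- pigeonhole
  by_contra hcon
  push Not at hcon
  have h1 : ∀ i, n * numMet G (L i) < (m - n * ℓ ^ r) * (ℓ + 1) := fun i => hcon (L i) (hL i)
  have h2 : ∑ i : Fin n, n * numMet G (L i) < ∑ i : Fin n, (m - n * ℓ ^ r) * (ℓ + 1) := by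
    apply sum_lt_sum_of_nonempty
    · exact ⟨⟨0, by omega⟩, mem_univ _⟩
    · intro i _; exact h1 i
  rw [← mul_sum, sum_const, card_univ, Fintype.card_fin, smul_eq_mul] at h2
  have h3 : ∑ i : Fin n, numMet G (L i) < (m - n * ℓ ^ r) * (ℓ + 1) :=
    lt_of_mul_lt_mul_left h2 (by omega)
  have h4 := hsum.trans (sum_le_sum (fun i _ => hnum i))
  have h5 : (m - n * ℓ ^ r) * (ℓ + 1) ≤ big.card * (ℓ + 1) := Nat.mul_le_mul_right _ hbig
  omega

/-- lower bound for hyperplanes, real form -/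
lemma fval_hyper_lower {d r : ℕ} (hr : 1 ≤ r) (hrd : r + 1 ≤ d + 2) {n m : ℕ} (hm1 : 1 ≤ m)
    (hm : m ≤ n.choose (r + 1)) :
    ((m : ℝ) / (2 * n)) ^ (1 + 1 / (r : ℝ)) ≤ (fval (d + 1) (r + 1) d m n : ℝ) := by
  have hn : 1 ≤ n := by
    by_contra h
    have : n = 0 := by omega
    subst this
    rw [Nat.choose_eq_zero_of_lt (by omega)] at hm
    omega
  have hn0 : (0 : ℝ) < n := by exact_mod_cast hn
  have hm0 : (0 : ℝ) < m := by exact_mod_cast hm1
  have hr0 : (0 : ℝ) < r := by exact_mod_cast hr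
  set q : ℝ := (m : ℝ) / (2 * n) with hq
  have hq0 : 0 < q := by positivity
  set y : ℝ := q ^ (1 / (r : ℝ)) with hy
  have hy0 : 0 < y := Real.rpow_pos_of_pos hq0 _
  have hyr : y ^ r = q := by
    rw [hy, one_div]
    exact Real.rpow_inv_natCast_pow hq0.le (by omega)
  set ℓ : ℕ := ⌊y⌋₊ with hℓ
  have hℓ1 : (ℓ : ℝ) ≤ y := Nat.floor_le hy0.le
  have hℓ2 : y < ℓ + 1 := Nat.lt_floor_add_one y
  have hpow : (n : ℝ) * (ℓ : ℝ) ^ r ≤ m / 2 := by
    calc (n : ℝ) * (ℓ : ℝ) ^ r ≤ n * y ^ r := by gcongr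
      _ = m / 2 := by rw [hyr, hq]; field_simp
  have hrw : q ^ (1 + 1 / (r : ℝ)) = q * y := by
    rw [Real.rpow_add hq0, Real.rpow_one]
  rw [hrw]
  have hceil : ⌈q * y⌉₊ ≤ fval (d + 1) (r + 1) d m n := by
    apply le_fval (exists_geomHyp (by omega) (by omega) hm)
    intro G hGn hGm
    obtain ⟨L, hL, h⟩ := hyper_lower G hGn hn hGm ℓ
    refine ⟨L, hL, ?_⟩
    rw [Nat.ceil_le]
    have h1 : ((m - n * ℓ ^ r : ℕ) : ℝ) * (ℓ + 1) ≤ n * numMet G L := by exact_mod_cast h
    have h2 : (m : ℝ) / 2 ≤ ((m - n * ℓ ^ r : ℕ) : ℝ) := by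
      have h3 : (n * ℓ ^ r : ℝ) ≤ m := by linarith
      have h4 : n * ℓ ^ r ≤ m := by exact_mod_cast h3
      rw [Nat.cast_sub h4]
      push_cast
      linarith
    have h5 : (m : ℝ) / 2 * y ≤ n * numMet G L := by
      calc (m : ℝ) / 2 * y ≤ ((m - n * ℓ ^ r : ℕ) : ℝ) * (ℓ + 1) := by gcongr
        _ ≤ _ := h1
    have h6 : q * y * n = (m : ℝ) / 2 * y := by
      rw [hq]; field_simp
    have h7 : q * y * n ≤ numMet G L * n := by
      rw [h6]; linarith
    exact le_of_mul_le_mul_right h7 hn0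
  calc q * y ≤ (⌈q * y⌉₊ : ℝ) := Nat.le_ceil _
    _ ≤ _ := by exact_mod_cast hceil

end Pool.Agent.H68
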